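import Pool.Agent.Lib.MP_b9b22b_co.AR.Iface
import Pool.Agent.Lib.MP_b9b22b_co.Lin.H63.Basic

/-!
ABA and ABB: the asymptotic forms of ABS. (helper89)
-/

set_option autoImplicit false

namespace Pool.Agent.Lib.MP_b9b22b_co.AR

open Finset

/-- The real inequality behind ABA. -/
theorem aba_real {N K lm ε δ : ℝ} (hδ0 : 0 < δ) (hδ1 : δ ≤ 1 / 10) (hδε : 10 * δ ≤ ε)
    (hK : 10 / δ ^ 2 ≤ K) (hKN : K ^ 2 ≤ 2 * N) (hl : 0 ≤ lm)
    (h : N * (2 * lm + 1) + (2 * N - (K + 1) * (K + 2)) * √(lm * (lm + 1)) ≤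
      √((K + 1) * (N * (N - 1 + (2 * lm + 1) ^ 2)))) :
    lm ≤ (1 + ε) * (2 * N / (4 * N - K ^ 2)) * (√K / 2) := by
  have hδ2 : 0 < δ ^ 2 := by positivity
  have hK10 : 10 ≤ δ ^ 2 * K := by
    rw [div_le_iff₀ hδ2] at hK
    linarith
  have hKpos : 0 < K := by
    by_contra hc
    have : δ ^ 2 * K ≤ 0 := mul_nonpos_of_nonneg_of_nonpos hδ2.le (not_lt.mp hc)
    linarith
  have hδK : 10 ≤ δ * K := by
    have : δ ^ 2 * K ≤ δ * K := by
      apply mul_le_mul_of_nonneg_right _ hKpos.le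
      nlinarith
    linarith
  have hK1 : 1 ≤ K := by nlinarith
  have hN : 0 < N := by nlinarith
  -- the size of `N`
  have hN1 : 5 * K ≤ δ ^ 2 * N := by nlinarith
  have hN2 : 5 * K ≤ δ * N := by nlinarith
  set s := √(lm * (lm + 1)) with hs
  have hs1 : lm ≤ s := by
    apply Real.le_sqrt_of_sq_le
    nlinarith
  have hs2 : s ≤ lm + 1 / 2 := by
    rw [hs, Real.sqrt_le_iff]
    exact ⟨by linarith, by nlinarith⟩
  have hr : (K + 1) * (K + 2) ≤ K ^ 2 + δ * N := by nlinarith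
  have h4 : 0 ≤ 4 * N - (K + 1) * (K + 2) := by nlinarith
  have hL : lm * (4 * N - (K + 1) * (K + 2)) ≤
      N * (2 * lm + 1) + (2 * N - (K + 1) * (K + 2)) * s := by
    rcases le_total 0 (2 * N - (K + 1) * (K + 2)) with h5 | h5
    · have h6 := mul_le_mul_of_nonneg_left hs1 h5
      nlinarith
    · have h6 := mul_le_mul_of_nonpos_left hs2 h5
      nlinarith
  set P := √(K + 1) with hP
  set Q := √N with hQ
  have hP0 : 0 ≤ P := Real.sqrt_nonneg _
  have hQ0 : 0 ≤ Q := Real.sqrt_nonneg _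
  have hP2 : P ^ 2 = K + 1 := Real.sq_sqrt (by linarith)
  have hQ2 : Q ^ 2 = N := Real.sq_sqrt hN.le
  have hR : √((K + 1) * (N * (N - 1 + (2 * lm + 1) ^ 2))) ≤ N * P + P * Q * (2 * lm + 1) := by
    rw [Real.sqrt_le_iff]
    refine ⟨by positivity, ?_⟩
    have e1 : (N * P + P * Q * (2 * lm + 1)) ^ 2 = (K + 1) * (N ^ 2 + N * (2 * lm + 1) ^ 2 +
        2 * N * (Q * (2 * lm + 1))) := by
      rw [← hP2]
      calc (N * P + P * Q * (2 * lm + 1)) ^ 2 =
          P ^ 2 * (N ^ 2 + Q ^ 2 * (2 * lm + 1) ^ 2 + 2 * N * (Q * (2 * lm + 1))) := by ring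
        _ = _ := by rw [hQ2]
    rw [e1]
    apply mul_le_mul_of_nonneg_left _ (by linarith)
    have h7 : 0 ≤ 2 * N * (Q * (2 * lm + 1)) := by positivity
    nlinarith
  have hPQ : P * Q ≤ δ * N := by
    apply abs_le_of_sq_le_sq' _ (by positivity) |>.2
    rw [mul_pow, hP2, hQ2, mul_pow]
    nlinarith
  have hQN : Q ≤ δ * N := by
    apply abs_le_of_sq_le_sq' _ (by positivity) |>.2
    rw [hQ2, mul_pow]
    nlinarith
  set k := √K with hk
  have hk0 : 0 ≤ k := Real.sqrt_nonneg _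
  have hk2 : k ^ 2 = K := Real.sq_sqrt hKpos.le
  have hPk : P ≤ (1 + δ) * k := by
    apply abs_le_of_sq_le_sq' _ (by positivity) |>.2
    rw [hP2, mul_pow, hk2]
    nlinarith
  have hR0 : 2 * N ≤ 4 * N - K ^ 2 := by linarith
  have hRpos : 0 < 4 * N - K ^ 2 := by linarith
  have h5 : lm * ((4 * N - K ^ 2) * (1 - 3 / 2 * δ)) ≤ (1 + δ) * k * ((1 + δ) * N) := by
    have h6 : lm * (4 * N - (K + 1) * (K + 2)) ≤ N * P + P * Q * (2 * lm + 1) :=
      hL.trans (h.trans hR)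
    have h7 : lm * (4 * N - (K + 1) * (K + 2) - 2 * (P * Q)) ≤ P * (N + Q) := by
      have e : P * (N + Q) - lm * (4 * N - (K + 1) * (K + 2) - 2 * (P * Q)) =
          N * P + P * Q * (2 * lm + 1) - lm * (4 * N - (K + 1) * (K + 2)) := by ring
      linarith
    have h8 : (4 * N - K ^ 2) * (1 - 3 / 2 * δ) ≤
        4 * N - (K + 1) * (K + 2) - 2 * (P * Q) := by
      have h9 : 3 / 2 * δ * (2 * N) ≤ 3 / 2 * δ * (4 * N - K ^ 2) :=
        mul_le_mul_of_nonneg_left hR0 (by positivity)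
      linarith
    calc lm * ((4 * N - K ^ 2) * (1 - 3 / 2 * δ)) ≤
        lm * (4 * N - (K + 1) * (K + 2) - 2 * (P * Q)) := mul_le_mul_of_nonneg_left h8 hl
      _ ≤ P * (N + Q) := h7
      _ ≤ (1 + δ) * k * ((1 + δ) * N) := by
          apply mul_le_mul hPk (by linarith) (by positivity) (by positivity)
  have h6 : (1 + δ) ^ 2 ≤ (1 + ε) * (1 - 3 / 2 * δ) := by
    nlinarith [mul_nonneg (by linarith : (0 : ℝ) ≤ ε - 10 * δ) (by linarith : (0 : ℝ) ≤ 1 / 10 - δ)]
  have h7 : 0 < 1 - 3 / 2 * δ := by linarith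
  have h8 : lm * (4 * N - K ^ 2) ≤ (1 + ε) * (N * k) := by
    have h9 : lm * (4 * N - K ^ 2) * (1 - 3 / 2 * δ) ≤ (1 + ε) * (N * k) * (1 - 3 / 2 * δ) := by
      calc lm * (4 * N - K ^ 2) * (1 - 3 / 2 * δ) = lm * ((4 * N - K ^ 2) * (1 - 3 / 2 * δ)) := by ring
        _ ≤ (1 + δ) * k * ((1 + δ) * N) := h5
        _ = (1 + δ) ^ 2 * (N * k) := by ring
        _ ≤ (1 + ε) * (1 - 3 / 2 * δ) * (N * k) := mul_le_mul_of_nonneg_right h6 (by positivity)
        _ = _ := by ring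
    exact le_of_mul_le_mul_right h9 h7
  calc lm ≤ (1 + ε) * (N * k) / (4 * N - K ^ 2) := by
        rw [le_div_iff₀ hRpos]
        exact h8
    _ = _ := by ring

/-- ABA. -/
theorem aba (hA : AbsStatement) : AbaStatement := by
  intro ε hε
  set δ : ℝ := min (1 / 10) (ε / 10) with hδ
  have hδ0 : 0 < δ := lt_min (by norm_num) (by linarith)
  have hδ1 : δ ≤ 1 / 10 := min_le_left _ _
  have hδε : 10 * δ ≤ ε := by
    have := min_le_right (1 / 10 : ℝ) (ε / 10)
    linarith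
  refine ⟨⌈10 / δ ^ 2⌉₊ + 3, ?_⟩
  intro n i hin hC hk G
  have hkR : (((n - i : ℕ) : ℝ)) ^ 2 ≤ 2 * n := by exact_mod_cast hk
  have hK : 10 / δ ^ 2 ≤ ((n - i : ℕ) : ℝ) :=
    (Nat.le_ceil _).trans (by exact_mod_cast le_trans (Nat.le_add_right _ 3) hC)
  have hn0 : (0 : ℝ) < n := by exact_mod_cast (by omega : 0 < n)
  rcases lt_or_ge (lam G i) 0 with hneg | hpos
  · refine hneg.le.trans ?_
    have h1 : (0 : ℝ) < 4 * n - ((n - i : ℕ) : ℝ) ^ 2 := by linarith
    positivity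
  · have hi1 : 1 ≤ i := by
      rcases Nat.eq_zero_or_pos i with h0 | h0
      · exfalso
        subst h0
        rw [Nat.sub_zero] at hk hC
        have h3 : 3 ≤ n := by omega
        nlinarith
      · exact h0
    have hkc : ((n - i : ℕ) : ℝ) = (n : ℝ) - i := Nat.cast_sub hin.le
    refine aba_real hδ0 hδ1 hδε hK hkR hpos ?_
    rw [hkc]
    exact hA n i G hi1 hin hpos

open scoped Classical in
/-- The Weyl inequality for a graph and its complement. -/
theorem weyl {V : Type*} [Fintype V] (G : SimpleGraph V) {i : ℕ} (hi : 1 ≤ i)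
    (hin : i ≤ Fintype.card V) : -1 - lam G i ≤ lam Gᶜ (Fintype.card V - i + 1) := by
  have hlt : i - 1 < Fintype.card V := by omega
  obtain ⟨u, hu, hform⟩ := exists_bottom (adj_isHermitian G) ⟨i - 1, hlt⟩
    (m := Fintype.card V - i + 1) (by simp; omega)
  have hlam : lam G i = (adj_isHermitian G).eigenvalues₀ ⟨i - 1, hlt⟩ := by
    unfold lam
    rw [dif_pos hlt]
  let L : (Fin (Fintype.card V - i + 1) → ℝ) →ₗ[ℝ] (V → ℝ) :=
    { toFun := fun c x => ∑ j, c j * u x j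
      map_add' := by
        intro c c'
        funext x
        simp only [Pi.add_apply, add_mul, Finset.sum_add_distrib]
      map_smul' := by
        intro a c
        funext x
        simp only [Pi.smul_apply, smul_eq_mul, RingHom.id_apply, Finset.mul_sum, mul_assoc] }
  have hLx : ∀ c x, L c x = ∑ j, c j * u x j := fun c x => rfl
  have hcoef : ∀ (c : Fin (Fintype.card V - i + 1) → ℝ) (k : Fin (Fintype.card V - i + 1)),
      ∑ x, u x k * L c x = c k := by
    intro c k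
    calc ∑ x, u x k * L c x = ∑ x, ∑ j, c j * (u x j * u x k) := by
          refine Finset.sum_congr rfl fun x _ => ?_
          rw [hLx, Finset.mul_sum]
          refine Finset.sum_congr rfl fun j _ => ?_
          ring
      _ = ∑ j, c j * ∑ x, u x j * u x k := by
          rw [Finset.sum_comm]
          refine Finset.sum_congr rfl fun j _ => ?_
          rw [Finset.mul_sum]
      _ = ∑ j, c j * (if j = k then 1 else 0) := by
          refine Finset.sum_congr rfl fun j _ => ?_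
          rw [hu]
      _ = c k := by simp
  have hL : Function.Injective L := by
    intro c c' h
    funext k
    rw [← hcoef c k, ← hcoef c' k, h]
  refine Lin.H63.le_lam_of Gᶜ (i := Fintype.card V - i + 1) (by omega) (by omega) L hL _ ?_
  intro c
  have h1 := hform c
  rw [← hlam] at h1
  have e1 : ∀ v w, (if Gᶜ.Adj v w then L c v * L c w else 0) =
      L c v * L c w - (if v = w then L c v * L c w else 0) -
        G.adjMatrix ℝ v w * (L c v * L c w) := by
    intro v w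
    rw [SimpleGraph.adjMatrix_apply]
    by_cases hvw : v = w
    · subst hvw
      rw [if_neg (Gᶜ.loopless.irrefl v), if_neg (G.loopless.irrefl v), if_pos rfl]
      ring
    · by_cases hadj : G.Adj v w
      · rw [if_neg (fun h => (SimpleGraph.compl_adj G v w).1 h |>.2 hadj), if_neg hvw,
          if_pos hadj]
        ring
      · rw [if_pos ((SimpleGraph.compl_adj G v w).2 ⟨hvw, hadj⟩), if_neg hvw, if_neg hadj]
        ring
  have e0 : ∑ v, ∑ w, (if Gᶜ.Adj v w then L c v * L c w else 0) =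
      (∑ v, L c v) ^ 2 - ∑ v, (L c v) ^ 2 - ∑ v, ∑ w, G.adjMatrix ℝ v w * (L c v * L c w) := by
    have e2 : ∑ v, ∑ w, L c v * L c w = (∑ v, L c v) ^ 2 := by
      rw [← Finset.sum_mul_sum, sq]
    have e3 : ∑ v, ∑ w, (if v = w then L c v * L c w else 0) = ∑ v, (L c v) ^ 2 := by
      refine Finset.sum_congr rfl fun v _ => ?_
      rw [Finset.sum_ite_eq, if_pos (Finset.mem_univ v), sq]
    rw [← e2, ← e3, ← Finset.sum_sub_distrib, ← Finset.sum_sub_distrib]
    refine Finset.sum_congr rfl fun v _ => ?_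
    rw [← Finset.sum_sub_distrib, ← Finset.sum_sub_distrib]
    exact Finset.sum_congr rfl fun w _ => e1 v w
  have h2 := sq_nonneg (∑ v, L c v)
  have h3 : ∑ v, ∑ w, G.adjMatrix ℝ v w * (L c v * L c w) ≤ lam G i * ∑ v, (L c v) ^ 2 := h1
  have h4 : (-1 - lam G i) * ∑ v, (L c v) ^ 2 ≤
      ∑ v, ∑ w, (if Gᶜ.Adj v w then L c v * L c w else 0) := by
    rw [e0]
    linarith
  refine h4.trans (le_of_eq ?_)
  refine Finset.sum_congr rfl fun v _ => Finset.sum_congr rfl fun w _ => ?_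
  by_cases h5 : Gᶜ.Adj v w
  · rw [if_pos h5, if_pos h5]
  · rw [if_neg h5, if_neg h5]

/-- ABB. -/
theorem abb (hA : AbsStatement) : AbbStatement := by
  intro ε hε
  obtain ⟨C, hC⟩ := aba hA (ε / 2) (by linarith)
  refine ⟨max (C + 2) ⌈64 / ε ^ 2⌉₊, ?_⟩
  intro n i hin hCi hi2 G
  have hi : C + 2 ≤ i := (le_max_left _ _).trans hCi
  have hbig : 64 / ε ^ 2 ≤ (i : ℝ) :=
    (Nat.le_ceil _).trans (by exact_mod_cast (le_max_right _ _).trans hCi)
  have hi0 : (0 : ℝ) < i := by exact_mod_cast (by omega : 0 < i)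
  have hn0 : (0 : ℝ) < n := by exact_mod_cast (by omega : 0 < n)
  have hiR : (i : ℝ) ^ 2 ≤ 2 * n := by exact_mod_cast hi2
  have hsub : n - (n - i + 1) = i - 1 := by omega
  have h1 : (i - 1) ^ 2 ≤ 2 * n := (Nat.pow_le_pow_left (Nat.sub_le i 1) 2).trans hi2
  have h2 := hC n (n - i + 1) (by omega) (by omega) (by rw [hsub]; exact h1) Gᶜ
  rw [hsub] at h2
  have hw := weyl G (i := i) (by omega) (by rw [Fintype.card_fin]; exact hin)
  rw [Fintype.card_fin] at hw
  have hcast : ((i - 1 : ℕ) : ℝ) ≤ i := by exact_mod_cast Nat.sub_le i 1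
  have hc0 : (0 : ℝ) ≤ ((i - 1 : ℕ) : ℝ) := Nat.cast_nonneg _
  have hsq : ((i - 1 : ℕ) : ℝ) ^ 2 ≤ (i : ℝ) ^ 2 := pow_le_pow_left₀ hc0 hcast 2
  have hden : (0 : ℝ) < 4 * n - (i : ℝ) ^ 2 := by linarith
  set R : ℝ := 2 * n / (4 * n - (i : ℝ) ^ 2) with hR
  have hR2 : 1 / 2 ≤ R := by
    rw [hR, le_div_iff₀ hden]
    nlinarith [sq_nonneg (i : ℝ)]
  have hfrac : 2 * (n : ℝ) / (4 * n - ((i - 1 : ℕ) : ℝ) ^ 2) ≤ R := by
    rw [hR]
    exact div_le_div_of_nonneg_left (by positivity) hden (by linarith)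
  have hroot : √((i - 1 : ℕ) : ℝ) ≤ √(i : ℝ) := Real.sqrt_le_sqrt hcast
  have hr0 : 0 ≤ √(i : ℝ) := Real.sqrt_nonneg _
  have h3 : (1 + ε / 2) * (2 * n / (4 * n - ((i - 1 : ℕ) : ℝ) ^ 2)) * (√((i - 1 : ℕ) : ℝ) / 2) ≤
      (1 + ε / 2) * R * (√(i : ℝ) / 2) := by
    apply mul_le_mul
    · exact mul_le_mul_of_nonneg_left hfrac (by positivity)
    · linarith
    · positivity
    · positivity
  have h4 : 8 / ε ≤ √(i : ℝ) := by
    apply Real.le_sqrt_of_sq_le
    rw [div_pow]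
    norm_num
    exact hbig
  have h5 : 1 ≤ ε / 2 * R * (√(i : ℝ) / 2) := by
    have h6 : 8 ≤ ε * √(i : ℝ) := by
      rw [div_le_iff₀ hε] at h4
      linarith
    have h7 : ε * √(i : ℝ) * (1 / 2) ≤ ε * √(i : ℝ) * R :=
      mul_le_mul_of_nonneg_left hR2 (by positivity)
    nlinarith
  have h8 : (1 + ε) * R * (√(i : ℝ) / 2) =
      (1 + ε / 2) * R * (√(i : ℝ) / 2) + ε / 2 * R * (√(i : ℝ) / 2) := by ring
  rw [h8]
  linarith

end Pool.Agent.Lib.MP_b9b22b_co.AR
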