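import Pool.Agent.Lib.MP_b9b22b_co.AR.Iface
import Pool.Agent.Lib.MP_b9b22b_co.Few.Count

/-!
ABS: the relative bound and the absolute bound in one inequality.
-/

set_option autoImplicit false

namespace Pool.Agent.Lib.MP_b9b22b_co.AR

open Finset Matrix Module

/-- sums of products of Gram matrices -/
theorem tensor_sum {V T S : Type*} [Fintype V] [Fintype T] [Fintype S] (z : V → ℝ)
    (F : V → T → ℝ) (H : V → S → ℝ) :
    ∑ x, ∑ y, (∑ a, F x a * F y a) * (∑ b, H x b * H y b) * (z x * z y) =
      ∑ a, ∑ b, (∑ x, z x * (F x a * H x b)) ^ 2 := by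
  have h1 : ∀ a b, (∑ x, z x * (F x a * H x b)) ^ 2 =
      ∑ x, ∑ y, (F x a * F y a) * (H x b * H y b) * (z x * z y) := by
    intro a b
    rw [sq, Finset.sum_mul_sum]
    exact Finset.sum_congr rfl fun x _ => Finset.sum_congr rfl fun y _ => by ring
  simp_rw [h1]
  have h2 : ∀ x y, (∑ a, F x a * F y a) * (∑ b, H x b * H y b) * (z x * z y) =
      ∑ a, ∑ b, (F x a * F y a) * (H x b * H y b) * (z x * z y) := by
    intro x y
    rw [Finset.sum_mul_sum, Finset.sum_mul]
    exact Finset.sum_congr rfl fun a _ => by rw [Finset.sum_mul]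
  simp_rw [h2]
  calc ∑ x, ∑ y, ∑ a, ∑ b, (F x a * F y a) * (H x b * H y b) * (z x * z y)
      = ∑ x, ∑ a, ∑ y, ∑ b, (F x a * F y a) * (H x b * H y b) * (z x * z y) :=
        Finset.sum_congr rfl fun x _ => Finset.sum_comm
    _ = ∑ a, ∑ x, ∑ y, ∑ b, (F x a * F y a) * (H x b * H y b) * (z x * z y) :=
        Finset.sum_comm
    _ = ∑ a, ∑ b, ∑ x, ∑ y, (F x a * F y a) * (H x b * H y b) * (z x * z y) := by
        refine Finset.sum_congr rfl fun a _ => ?_
        calc ∑ x, ∑ y, ∑ b, (F x a * F y a) * (H x b * H y b) * (z x * z y)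
            = ∑ x, ∑ b, ∑ y, (F x a * F y a) * (H x b * H y b) * (z x * z y) :=
              Finset.sum_congr rfl fun x _ => Finset.sum_comm
          _ = _ := Finset.sum_comm

/-- Bessel's inequality in coordinates -/
theorem bessel {V : Type*} [Fintype V] {D : ℕ} {w : Fin D → EuclideanSpace ℝ V}
    (hw : Orthonormal ℝ w) (v : V → ℝ) :
    ∑ c, (∑ x, w c x * v x) ^ 2 ≤ ∑ x, v x ^ 2 := by
  have h := hw.sum_inner_products_le (WithLp.toLp 2 v) (s := Finset.univ)
  rw [EuclideanSpace.real_norm_sq_eq] at h
  refine le_trans (le_of_eq ?_) h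
  refine Finset.sum_congr rfl fun c _ => ?_
  rw [PiLp.inner_apply, Real.norm_eq_abs, sq_abs]
  congr 1
  refine Finset.sum_congr rfl fun x _ => ?_
  simp [mul_comm]

/-- The core: if the squares of the entries of `(X_x · X_y) - (Y_x · Y_y)` are `1`, and `1 + κ ^ 2` on
the diagonal, then the sum of the `|Y_x| ^ 2` is at least `κ (|V| - dim Sym ^ 2)`. -/
theorem abs_core {V T S : Type*} [Fintype V] [DecidableEq V] [Fintype T] [DecidableEq T]
    [Fintype S] (X : V → T → ℝ) (Y : V → S → ℝ) {κ : ℝ}
    (hsq : ∀ x y, (∑ a, X x a * X y a - ∑ b, Y x b * Y y b) ^ 2 =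
      1 + if x = y then κ ^ 2 else 0)
    {D : ℕ} (hD : D + (Fintype.card T + 1).choose 2 ≤ Fintype.card V) :
    κ * D ≤ ∑ x, ∑ b, Y x b ^ 2 := by
  set d : V → ℝ := fun x => ∑ b, Y x b ^ 2 with hd
  have hd0 : ∀ x, 0 ≤ d x := fun x => Finset.sum_nonneg fun _ _ => sq_nonneg _
  -- the inequality with a perturbation
  have key : ∀ e : ℝ, 0 < e → 2 * (κ * D) ≤ 2 * ∑ x, d x + Fintype.card V * e := by
    intro e he
    set s : V → ℝ := fun x => d x + e with hs
    have hs0 : ∀ x, 0 < s x := fun x => by have := hd0 x; simp only [hs]; linarith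
    set c : V → ℝ := fun x => (√(s x))⁻¹ with hc
    have hc2 : ∀ x, c x ^ 2 = (s x)⁻¹ := by
      intro x
      simp only [hc]
      rw [inv_pow, Real.sq_sqrt (hs0 x).le]
    set g : V → Sym2 T → ℝ := fun x => Sym2.lift ⟨fun a b => X x a * X x b,
      fun a b => mul_comm _ _⟩ with hg
    let Φ : EuclideanSpace ℝ V →ₗ[ℝ] (Sym2 T → ℝ) :=
      { toFun := fun w p => ∑ x, w x * (c x * g x p)
        map_add' := by
          intro w w'
          funext p
          rw [Pi.add_apply, ← Finset.sum_add_distrib]
          refine Finset.sum_congr rfl fun x _ => ?_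
          rw [PiLp.add_apply]
          ring
        map_smul' := by
          intro r w
          funext p
          rw [Pi.smul_apply, smul_eq_mul, Finset.mul_sum]
          refine Finset.sum_congr rfl fun x _ => ?_
          rw [PiLp.smul_apply, smul_eq_mul, RingHom.id_apply]
          ring }
    have hker : D ≤ finrank ℝ (LinearMap.ker Φ) := by
      have h1 := Φ.finrank_range_add_finrank_ker
      have h2 := Submodule.finrank_le (LinearMap.range Φ)
      rw [finrank_euclideanSpace] at h1
      rw [Module.finrank_fintype_fun_eq_card, Sym2.card] at h2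
      omega
    obtain ⟨w, hw, hwk⟩ := exists_orthonormal _ hker
    have hz : ∀ j a b, ∑ x, (w j x * c x) * (X x a * X x b) = 0 := by
      intro j a b
      have h := congrFun (LinearMap.mem_ker.mp (hwk j)) s(a, b)
      rw [Pi.zero_apply] at h
      rw [← h]
      refine Finset.sum_congr rfl fun x _ => ?_
      simp only [hg, Sym2.lift_mk]
      ring
    -- the quadratic identity
    have h1 : ∀ j, κ ^ 2 * ∑ x, (w j x * c x) ^ 2 ≤
        ∑ b, ∑ b', (∑ x, (w j x * c x) * (Y x b * Y x b')) ^ 2 := by
      intro j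
      set z : V → ℝ := fun x => w j x * c x with hzdef
      have e1 : ∑ x, ∑ y, (∑ a, X x a * X y a - ∑ b, Y x b * Y y b) ^ 2 * (z x * z y) =
          (∑ x, z x) ^ 2 + κ ^ 2 * ∑ x, z x ^ 2 := by
        simp_rw [hsq]
        have e2 : ∀ x y, (1 + if x = y then κ ^ 2 else 0) * (z x * z y) =
            z x * z y + if x = y then κ ^ 2 * (z x * z y) else 0 := by
          intro x y
          split_ifs <;> ring
        simp_rw [e2, Finset.sum_add_distrib, Finset.sum_ite_eq, Finset.mem_univ, if_true]
        rw [sq (∑ x, z x), Finset.sum_mul_sum, Finset.mul_sum]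
        congr 1
        exact Finset.sum_congr rfl fun x _ => by ring
      have e3 : ∑ x, ∑ y, (∑ a, X x a * X y a - ∑ b, Y x b * Y y b) ^ 2 * (z x * z y) =
          ∑ x, ∑ y, (∑ a, X x a * X y a) * (∑ a, X x a * X y a) * (z x * z y) -
          2 * ∑ x, ∑ y, (∑ a, X x a * X y a) * (∑ b, Y x b * Y y b) * (z x * z y) +
          ∑ x, ∑ y, (∑ b, Y x b * Y y b) * (∑ b, Y x b * Y y b) * (z x * z y) := by
        rw [Finset.mul_sum, ← Finset.sum_sub_distrib, ← Finset.sum_add_distrib]
        refine Finset.sum_congr rfl fun x _ => ?_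
        rw [Finset.mul_sum, ← Finset.sum_sub_distrib, ← Finset.sum_add_distrib]
        exact Finset.sum_congr rfl fun y _ => by ring
      rw [tensor_sum, tensor_sum, tensor_sum] at e3
      have e4 : ∑ a, ∑ b, (∑ x, z x * (X x a * X x b)) ^ 2 = 0 := by
        refine Finset.sum_eq_zero fun a _ => Finset.sum_eq_zero fun b _ => ?_
        rw [hz j a b]
        ring
      have e5 : 0 ≤ ∑ a, ∑ b, (∑ x, z x * (X x a * Y x b)) ^ 2 :=
        Finset.sum_nonneg fun _ _ => Finset.sum_nonneg fun _ _ => sq_nonneg _
      have e6 := sq_nonneg (∑ x, z x)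
      linarith
    -- summation over the orthonormal family
    have h2 : ∑ j, ∑ b, ∑ b', (∑ x, (w j x * c x) * (Y x b * Y x b')) ^ 2 ≤ ∑ x, d x := by
      calc ∑ j, ∑ b, ∑ b', (∑ x, (w j x * c x) * (Y x b * Y x b')) ^ 2
          = ∑ b, ∑ b', ∑ j, (∑ x, w j x * (c x * (Y x b * Y x b'))) ^ 2 := by
            rw [Finset.sum_comm]
            refine Finset.sum_congr rfl fun b _ => ?_
            rw [Finset.sum_comm]
            refine Finset.sum_congr rfl fun b' _ => Finset.sum_congr rfl fun j _ => ?_
            congr 1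
            exact Finset.sum_congr rfl fun x _ => by ring
        _ ≤ ∑ b, ∑ b', ∑ x, (c x * (Y x b * Y x b')) ^ 2 :=
            Finset.sum_le_sum fun b _ => Finset.sum_le_sum fun b' _ => bessel hw _
        _ = ∑ x, c x ^ 2 * (d x * d x) := by
            rw [Finset.sum_congr rfl fun b _ => Finset.sum_comm, Finset.sum_comm]
            refine Finset.sum_congr rfl fun x _ => ?_
            simp only [hd]
            rw [Finset.sum_mul_sum, Finset.mul_sum]
            refine Finset.sum_congr rfl fun b _ => ?_
            rw [Finset.mul_sum]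
            exact Finset.sum_congr rfl fun b' _ => by ring
        _ ≤ ∑ x, d x := by
            refine Finset.sum_le_sum fun x _ => ?_
            rw [hc2, inv_mul_le_iff₀ (hs0 x)]
            have := hd0 x
            simp only [hs]
            nlinarith
    have h3 : κ ^ 2 * ∑ j, ∑ x, w j x ^ 2 * (s x)⁻¹ ≤ ∑ x, d x := by
      refine le_trans ?_ h2
      rw [Finset.mul_sum]
      refine Finset.sum_le_sum fun j _ => ?_
      refine le_trans (le_of_eq ?_) (h1 j)
      congr 1
      refine Finset.sum_congr rfl fun x _ => ?_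
      rw [mul_pow, hc2]
    have h4 : ∀ x, ∑ j, w j x ^ 2 ≤ 1 := by
      intro x
      have h := bessel hw (Pi.single x (1 : ℝ))
      have e1 : ∀ j, ∑ y, w j y * (Pi.single x (1 : ℝ) : V → ℝ) y = w j x := by
        intro j
        rw [Finset.sum_eq_single x]
        · simp
        · intro y _ hy
          rw [Pi.single_eq_of_ne hy, mul_zero]
        · simp
      have e2 : ∑ y, (Pi.single x (1 : ℝ) : V → ℝ) y ^ 2 = 1 := by
        rw [Finset.sum_eq_single x]
        · simp
        · intro y _ hy
          rw [Pi.single_eq_of_ne hy]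
          norm_num
        · simp
      simp_rw [e1] at h
      rw [e2] at h
      exact h
    have h5 : ∑ j, ∑ x, w j x ^ 2 * s x ≤ ∑ x, s x := by
      rw [Finset.sum_comm]
      refine Finset.sum_le_sum fun x _ => ?_
      rw [← Finset.sum_mul]
      have := h4 x
      have := hs0 x
      nlinarith
    have h6 : ∀ j, ∑ x, w j x ^ 2 = 1 := by
      intro j
      have h := hw.1 j
      have h' : ‖w j‖ ^ 2 = 1 := by rw [h]; norm_num
      rw [EuclideanSpace.real_norm_sq_eq] at h'
      exact h'
    have h7 : 2 * (κ * D) ≤ ∑ j, ∑ x, w j x ^ 2 * s x +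
        κ ^ 2 * ∑ j, ∑ x, w j x ^ 2 * (s x)⁻¹ := by
      have e1 : 2 * (κ * D) = ∑ j : Fin D, ∑ x, w j x ^ 2 * (2 * κ) := by
        simp_rw [← Finset.sum_mul, h6]
        simp
        ring
      rw [e1, Finset.mul_sum, ← Finset.sum_add_distrib]
      refine Finset.sum_le_sum fun j _ => ?_
      rw [Finset.mul_sum, ← Finset.sum_add_distrib]
      refine Finset.sum_le_sum fun x _ => ?_
      have h8 : 2 * κ ≤ s x + κ ^ 2 * (s x)⁻¹ := by
        have hsx := hs0 x
        have h9 : 0 ≤ (s x - κ) ^ 2 * (s x)⁻¹ := mul_nonneg (sq_nonneg _) (inv_nonneg.mpr hsx.le)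
        have h10 : (s x - κ) ^ 2 * (s x)⁻¹ = s x + κ ^ 2 * (s x)⁻¹ - 2 * κ := by
          field_simp
          ring
        linarith
      have h9 := mul_le_mul_of_nonneg_left h8 (sq_nonneg (w j x))
      linarith
    have h8 : ∑ x, s x = ∑ x, d x + Fintype.card V * e := by
      simp only [hs]
      rw [Finset.sum_add_distrib]
      simp
    linarith
  -- letting the perturbation tend to zero
  by_contra hcon
  push Not at hcon
  set δ : ℝ := κ * D - ∑ x, d x with hδ
  have hδ0 : 0 < δ := by simp only [hδ]; linarith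
  have hn : (0 : ℝ) ≤ Fintype.card V := Nat.cast_nonneg _
  have h := key (δ / (Fintype.card V + 1)) (by positivity)
  have h1 : (Fintype.card V : ℝ) * (δ / (Fintype.card V + 1)) ≤ δ := by
    rw [← mul_div_assoc, div_le_iff₀ (by linarith)]
    nlinarith
  linarith

open scoped Classical in
/-- ABS for a graph on an arbitrary finite set of vertices. -/
theorem abs_gen {V : Type*} [Fintype V] (G : SimpleGraph V) {i : ℕ} (hi : 1 ≤ i)
    (hin : i < Fintype.card V) (h0 : 0 ≤ lam G i) :
    (Fintype.card V : ℝ) * (2 * lam G i + 1) +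
      (2 * Fintype.card V - (Fintype.card V - i + 1) * (Fintype.card V - i + 2)) *
        √(lam G i * (lam G i + 1)) ≤
      √((Fintype.card V - i + 1) *
        (Fintype.card V * (Fintype.card V - 1 + (2 * lam G i + 1) ^ 2))) := by
  have hlt : i - 1 < Fintype.card V := by omega
  obtain ⟨u, hu, hu0, hform⟩ := exists_top (adj_isHermitian G) ⟨i - 1, hlt⟩ (fun _ => 1)
  have hl : lam G i = (adj_isHermitian G).eigenvalues₀ ⟨i - 1, hlt⟩ := by
    unfold lam
    rw [dif_pos hlt]
  rw [← hl] at hform
  set l : ℝ := lam G i with hldef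
  simp only [mul_one] at hu0
  set n : ℝ := (Fintype.card V : ℝ) with hn
  set M : Matrix V V ℝ := Matrix.of fun x y =>
    1 - 2 * G.adjMatrix ℝ x y + if x = y then 2 * l else 0 with hMdef
  have hMxy : ∀ x y, M x y = 1 - 2 * G.adjMatrix ℝ x y + if x = y then 2 * l else 0 :=
    fun x y => rfl
  have hM : M.IsHermitian := by
    ext x y
    rw [Matrix.conjTranspose_apply, hMxy, hMxy]
    simp only [SimpleGraph.adjMatrix_apply, star_trivial, G.adj_comm, eq_comm]
  have hMsq : ∀ x y, M x y ^ 2 = 1 + if x = y then 4 * (l * (l + 1)) else 0 := by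
    intro x y
    rw [hMxy, SimpleGraph.adjMatrix_apply]
    by_cases hxy : x = y
    · subst hxy
      simp only [SimpleGraph.irrefl, if_false, if_true]
      ring
    · simp only [hxy, if_false]
      split_ifs <;> ring
  -- the form of `M` is nonpositive on a space of dimension `i - 1`
  have hnu : i - 1 ≤ Few.nu hM := by
    refine Few.nu_ge hM (Matrix.mulVecLin (Matrix.of u)) ?_ ?_
    · intro c c' hcc
      funext j
      have h1 : ∀ c : Fin (i - 1) → ℝ, ∑ x, u x j * (Matrix.mulVecLin (Matrix.of u) c) x = c j := by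
        intro c
        have h2 : ∀ x, u x j * (Matrix.mulVecLin (Matrix.of u) c) x =
            ∑ k, c k * (u x j * u x k) := by
          intro x
          rw [Matrix.mulVecLin_apply]
          simp only [Matrix.mulVec, dotProduct, Matrix.of_apply, Finset.mul_sum]
          exact Finset.sum_congr rfl fun k _ => by ring
        simp_rw [h2]
        rw [Finset.sum_comm]
        simp_rw [← Finset.mul_sum, hu]
        simp
      rw [← h1 c, ← h1 c', hcc]
    · intro c
      have h1 := hform c
      have hL : ∀ x, (Matrix.mulVecLin (Matrix.of u) c) x = ∑ j, c j * u x j := by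
        intro x
        rw [Matrix.mulVecLin_apply]
        simp only [Matrix.mulVec, dotProduct, Matrix.of_apply]
        exact Finset.sum_congr rfl fun k _ => by ring
      simp_rw [hL]
      set f : V → ℝ := fun x => ∑ j, c j * u x j with hf
      have hsum : ∑ x, f x = 0 := by
        simp only [hf]
        rw [Finset.sum_comm]
        simp_rw [← Finset.mul_sum, hu0]
        simp
      have e1 : ∑ x, ∑ y, M x y * (f x * f y) =
          (∑ x, f x) ^ 2 - 2 * ∑ x, ∑ y, G.adjMatrix ℝ x y * (f x * f y) +
            2 * (l * ∑ x, f x ^ 2) := by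
        have e2 : ∀ x y, M x y * (f x * f y) =
            f x * f y - 2 * (G.adjMatrix ℝ x y * (f x * f y)) +
              (if x = y then 2 * (l * (f x * f y)) else 0) := by
          intro x y
          rw [hMxy]
          split_ifs <;> ring
        simp_rw [e2, Finset.sum_add_distrib, Finset.sum_sub_distrib, Finset.sum_ite_eq,
          Finset.mem_univ, if_true]
        rw [sq (∑ x, f x), Finset.sum_mul_sum]
        simp_rw [← Finset.mul_sum]
        congr 3
        exact Finset.sum_congr rfl fun x _ => by ring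
      change ∑ x, ∑ y, M x y * (f x * f y) ≤ 0
      change l * ∑ x, f x ^ 2 ≤ ∑ x, ∑ y, G.adjMatrix ℝ x y * (f x * f y) at h1
      rw [e1, hsum]
      linarith
  -- the positive eigenvalues
  set T : Finset V := Finset.univ.filter fun j => 0 < hM.eigenvalues j with hT
  have hTcard : T.card + (i - 1) ≤ Fintype.card V := by
    have h1 : T.card + Few.nu hM = Fintype.card V := by
      have h2 := Finset.card_filter_add_card_filter_not (s := (Finset.univ : Finset V))
        (fun j => 0 < hM.eigenvalues j)
      rw [Finset.card_univ] at h2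
      rw [← h2]
      unfold Few.nu
      simp only [not_lt]
      rfl
    omega
  set tN : ℝ := ∑ j, max (-hM.eigenvalues j) 0 with htN
  have htN0 : 0 ≤ tN := Finset.sum_nonneg fun _ _ => le_max_right _ _
  have hposT : ∑ j ∈ T, hM.eigenvalues j = ∑ j, max (hM.eigenvalues j) 0 := by
    rw [hT, Finset.sum_filter]
    refine Finset.sum_congr rfl fun j _ => ?_
    split_ifs with h
    · exact (max_eq_left h.le).symm
    · exact (max_eq_right (not_lt.mp h)).symm
  -- trace
  have htr : ∑ j ∈ T, hM.eigenvalues j = n * (2 * l + 1) + tN := by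
    have h1 := hM.trace_eq_sum_eigenvalues
    have h2 : M.trace = n * (2 * l + 1) := by
      rw [Matrix.trace]
      simp only [Matrix.diag_apply, hMxy, SimpleGraph.adjMatrix_apply, SimpleGraph.irrefl,
        if_false, if_true]
      rw [Finset.sum_const, Finset.card_univ, nsmul_eq_mul, hn]
      ring
    have h3 : ∑ j, hM.eigenvalues j =
        ∑ j, max (hM.eigenvalues j) 0 - ∑ j, max (-hM.eigenvalues j) 0 := by
      rw [← Finset.sum_sub_distrib]
      refine Finset.sum_congr rfl fun j _ => ?_
      rcases le_total 0 (hM.eigenvalues j) with h | h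
      · rw [max_eq_left h, max_eq_right (by linarith)]; ring
      · rw [max_eq_right h, max_eq_left (by linarith)]; ring
    rw [hposT]
    rw [h2] at h1
    simp only [RCLike.ofReal_real_eq_id, id] at h1
    linarith
  -- Frobenius norm
  have hfro : (∑ j ∈ T, hM.eigenvalues j) ^ 2 ≤
      (n - i + 1) * (n * (n - 1 + (2 * l + 1) ^ 2)) := by
    have h1 := sq_sum_le_card_mul_sum_sq (s := T) (f := fun j => hM.eigenvalues j)
    have h2 : ∑ j ∈ T, hM.eigenvalues j ^ 2 ≤ n * (n - 1 + (2 * l + 1) ^ 2) := by
      calc ∑ j ∈ T, hM.eigenvalues j ^ 2 ≤ ∑ j, hM.eigenvalues j ^ 2 :=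
            Finset.sum_le_sum_of_subset_of_nonneg (Finset.subset_univ _)
              fun _ _ _ => sq_nonneg _
        _ = ∑ x, ∑ y, M x y ^ 2 := (Few.sum_sq hM).symm
        _ = n * (n - 1 + (2 * l + 1) ^ 2) := by
            simp_rw [hMsq, Finset.sum_add_distrib, Finset.sum_ite_eq, Finset.mem_univ, if_true]
            simp only [Finset.sum_const, Finset.card_univ, nsmul_eq_mul, mul_one]
            rw [← hn]
            ring
    have h3 : (T.card : ℝ) ≤ n - i + 1 := by
      have h4 : T.card + i ≤ Fintype.card V + 1 := by omega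
      have h5 : (T.card : ℝ) + i ≤ n + 1 := by
        rw [hn]
        exact_mod_cast h4
      linarith
    have h4 : 0 ≤ ∑ j ∈ T, hM.eigenvalues j ^ 2 := Finset.sum_nonneg fun _ _ => sq_nonneg _
    calc (∑ j ∈ T, hM.eigenvalues j) ^ 2 ≤ T.card * ∑ j ∈ T, hM.eigenvalues j ^ 2 := h1
      _ ≤ (n - i + 1) * ∑ j ∈ T, hM.eigenvalues j ^ 2 := mul_le_mul_of_nonneg_right h3 h4
      _ ≤ _ := mul_le_mul_of_nonneg_left h2 (le_trans (Nat.cast_nonneg _) h3)
  -- the absolute bound
  have habs : (2 * n - (n - i + 1) * (n - i + 2)) * √(l * (l + 1)) ≤ tN := by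
    set k : ℕ := Fintype.card V - i with hk
    have hkr : (k : ℝ) = n - i := by
      rw [hk, Nat.cast_sub hin.le]
    have hch : (((k + 2).choose 2 : ℕ) : ℝ) = ((k : ℝ) + 2) * (k + 1) / 2 := by
      rw [Nat.cast_choose_two]
      push_cast
      ring
    rcases Nat.lt_or_ge (Fintype.card V) ((k + 2).choose 2) with hlt2 | hge2
    · have h1 : (n : ℝ) < ((k : ℝ) + 2) * (k + 1) / 2 := by
        rw [← hch, hn]
        exact_mod_cast hlt2
      have h2 : (2 * n - (n - i + 1) * (n - i + 2)) ≤ 0 := by
        rw [← hkr]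
        nlinarith
      exact (mul_nonpos_of_nonpos_of_nonneg h2 (Real.sqrt_nonneg _)).trans htN0
    · have hll : 0 ≤ l * (l + 1) := by positivity
      have h1 := abs_core (V := V) (T := T) (S := V)
        (fun x a => √(hM.eigenvalues a) * hM.eigenvectorBasis a x)
        (fun x j => √(max (-hM.eigenvalues j) 0) * hM.eigenvectorBasis j x)
        (κ := 2 * √(l * (l + 1))) ?_ (D := Fintype.card V - (k + 2).choose 2) ?_
      · have h2 : ∑ x, ∑ j, (√(max (-hM.eigenvalues j) 0) * hM.eigenvectorBasis j x) ^ 2 = tN := by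
          rw [Finset.sum_comm, htN]
          refine Finset.sum_congr rfl fun j _ => ?_
          simp_rw [mul_pow]
          rw [← Finset.mul_sum, Few.norm_one hM, mul_one, Real.sq_sqrt (le_max_right _ _)]
        rw [h2] at h1
        refine le_trans (le_of_eq ?_) h1
        rw [Nat.cast_sub hge2, hch, ← hn, hkr]
        ring
      · intro x y
        have e1 : ∑ a : T, (√(hM.eigenvalues a) * hM.eigenvectorBasis a x) *
            (√(hM.eigenvalues a) * hM.eigenvectorBasis a y) =
            ∑ j, max (hM.eigenvalues j) 0 * (hM.eigenvectorBasis j x * hM.eigenvectorBasis j y) := by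
          rw [Finset.sum_coe_sort T (fun a => (√(hM.eigenvalues a) * hM.eigenvectorBasis a x) *
            (√(hM.eigenvalues a) * hM.eigenvectorBasis a y)), hT, Finset.sum_filter]
          refine Finset.sum_congr rfl fun j _ => ?_
          split_ifs with h
          · rw [max_eq_left h.le]
            have h2 := Real.mul_self_sqrt h.le
            calc (√(hM.eigenvalues j) * hM.eigenvectorBasis j x) *
                (√(hM.eigenvalues j) * hM.eigenvectorBasis j y) =
                (√(hM.eigenvalues j) * √(hM.eigenvalues j)) *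
                  (hM.eigenvectorBasis j x * hM.eigenvectorBasis j y) := by ring
              _ = _ := by rw [h2]
          · rw [max_eq_right (not_lt.mp h), zero_mul]
        have e2 : ∑ j, (√(max (-hM.eigenvalues j) 0) * hM.eigenvectorBasis j x) *
            (√(max (-hM.eigenvalues j) 0) * hM.eigenvectorBasis j y) =
            ∑ j, max (-hM.eigenvalues j) 0 *
              (hM.eigenvectorBasis j x * hM.eigenvectorBasis j y) := by
          refine Finset.sum_congr rfl fun j _ => ?_
          have h2 := Real.mul_self_sqrt (le_max_right (-hM.eigenvalues j) 0)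
          calc (√(max (-hM.eigenvalues j) 0) * hM.eigenvectorBasis j x) *
              (√(max (-hM.eigenvalues j) 0) * hM.eigenvectorBasis j y) =
              (√(max (-hM.eigenvalues j) 0) * √(max (-hM.eigenvalues j) 0)) *
                (hM.eigenvectorBasis j x * hM.eigenvectorBasis j y) := by ring
            _ = _ := by rw [h2]
        have e3 : ∑ a : T, (√(hM.eigenvalues a) * hM.eigenvectorBasis a x) *
            (√(hM.eigenvalues a) * hM.eigenvectorBasis a y) -
            ∑ j, (√(max (-hM.eigenvalues j) 0) * hM.eigenvectorBasis j x) *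
            (√(max (-hM.eigenvalues j) 0) * hM.eigenvectorBasis j y) = M x y := by
          rw [e1, e2, Few.entry hM x y, ← Finset.sum_sub_distrib]
          refine Finset.sum_congr rfl fun j _ => ?_
          rcases le_total 0 (hM.eigenvalues j) with h | h
          · rw [max_eq_left h, max_eq_right (by linarith)]; ring
          · rw [max_eq_right h, max_eq_left (by linarith)]; ring
        rw [e3, hMsq, mul_pow, Real.sq_sqrt hll]
        norm_num
      · have h2 : (Fintype.card T + 1).choose 2 ≤ (k + 2).choose 2 := by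
          refine Nat.choose_le_choose 2 ?_
          rw [Fintype.card_coe]
          omega
        omega
  have hfin := Real.abs_le_sqrt hfro
  have hpos := le_abs_self (∑ j ∈ T, hM.eigenvalues j)
  linarith

/-- ABS. -/
theorem abs_row : AbsStatement := by
  intro n i G hi hin h0
  have h := abs_gen G hi (by rw [Fintype.card_fin]; exact hin) h0
  rw [Fintype.card_fin] at h
  exact h

end Pool.Agent.Lib.MP_b9b22b_co.AR
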