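import Mathlib

/-!
The quadratic character of `ZMod p` as a real function, and the vectors `r c`.
-/

set_option autoImplicit false

namespace Pool.Agent.Lib.MP_b9b22b_co.AR

open Finset

variable {p : ℕ} [Fact p.Prime]

/-- the quadratic character with real values -/
noncomputable def chi (x : ZMod p) : ℝ := (quadraticChar (ZMod p) x : ℝ)

theorem chi_zero : chi (0 : ZMod p) = 0 := by simp [chi]

theorem chi_mul (x y : ZMod p) : chi (x * y) = chi x * chi y := by
  unfold chi
  rw [map_mul]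
  push_cast
  ring

theorem chi_one : chi (1 : ZMod p) = 1 := by simp [chi]

theorem chi_sq {x : ZMod p} (hx : x ≠ 0) : chi x * chi x = 1 := by
  have h := quadraticChar_sq_one hx
  unfold chi
  rw [← sq]
  exact_mod_cast h

theorem chi_pm {x : ZMod p} (hx : x ≠ 0) : chi x = 1 ∨ chi x = -1 := by
  have h : (chi x - 1) * (chi x + 1) = 0 := by
    have := chi_sq hx
    linear_combination this
  rcases mul_eq_zero.1 h with h1 | h1
  · left; linarith
  · right; linarith

theorem chi_sum (hp : 2 < p) : ∑ x : ZMod p, chi x = 0 := by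
  have h := quadraticChar_sum_zero (F := ZMod p) (by rw [ZMod.ringChar_zmod_n]; omega)
  unfold chi
  exact_mod_cast h

/-- `∑ χ(x - c) χ(x - c') = -1` for `c ≠ c'` -/
theorem chi_corr (hp : 2 < p) {c c' : ZMod p} (h : c ≠ c') :
    ∑ x, chi (x - c) * chi (x - c') = -1 := by
  have hd : c' - c ≠ 0 := sub_ne_zero.2 (Ne.symm h)
  -- put x = c' + t; for t ≠ 0 the term is χ(1 + (c' - c) t⁻¹)
  have h1 : ∑ x, chi (x - c) * chi (x - c') = ∑ t : ZMod p, chi (t + (c' - c)) * chi t := by
    rw [← Equiv.sum_comp (Equiv.addRight c')]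
    refine Finset.sum_congr rfl fun t _ => ?_
    simp only [Equiv.coe_addRight]
    congr 2 <;> ring
  have h2 : ∀ t : ZMod p, chi (t + (c' - c)) * chi t =
      chi (1 + (c' - c) * t⁻¹) - (if t = 0 then 1 else 0) := by
    intro t
    by_cases ht : t = 0
    · subst ht
      simp [chi_zero, chi_one]
    · rw [if_neg ht, sub_zero]
      have e1 : t + (c' - c) = t * (1 + (c' - c) * t⁻¹) := by
        field_simp
      rw [e1, chi_mul]
      have e2 := chi_sq ht
      linear_combination (chi (1 + (c' - c) * t⁻¹)) * e2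
  rw [h1]
  simp_rw [h2]
  rw [Finset.sum_sub_distrib, Finset.sum_ite_eq' univ (0 : ZMod p), if_pos (Finset.mem_univ _)]
  have h3 : ∑ t : ZMod p, chi (1 + (c' - c) * t⁻¹) = 0 := by
    have e1 : ∑ t : ZMod p, chi (1 + (c' - c) * t⁻¹) = ∑ t : ZMod p, chi (1 + (c' - c) * t) :=
      Equiv.sum_comp (Equiv.inv (ZMod p)) (fun t => chi (1 + (c' - c) * t))
    have e2 : ∑ t : ZMod p, chi (1 + (c' - c) * t) = ∑ t : ZMod p, chi (1 + t) :=
      Equiv.sum_comp (Equiv.mulLeft₀ (c' - c) hd) (fun t => chi (1 + t))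
    have e3 : ∑ t : ZMod p, chi (1 + t) = ∑ t : ZMod p, chi t :=
      Equiv.sum_comp (Equiv.addLeft (1 : ZMod p)) (fun t => chi t)
    rw [e1, e2, e3, chi_sum hp]
  rw [h3]
  ring

theorem chi_corr_self (c : ZMod p) : ∑ x, chi (x - c) * chi (x - c) = (p : ℝ) - 1 := by
  have h1 : ∀ x : ZMod p, chi (x - c) * chi (x - c) = 1 - (if x = c then 1 else 0) := by
    intro x
    by_cases h : x = c
    · subst h
      simp [chi_zero]
    · rw [chi_sq (sub_ne_zero.2 h), if_neg h, sub_zero]
  simp_rw [h1]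
  rw [Finset.sum_sub_distrib, Finset.sum_ite_eq' univ c, if_pos (Finset.mem_univ c)]
  simp [ZMod.card]

/-- the norm bound for the matrix `χ(c - c')` -/
theorem chi_form (hp : 2 < p) (y : ZMod p → ℝ) :
    -(√(p : ℝ) * ∑ c, y c ^ 2) ≤ ∑ c, ∑ c', chi (c - c') * (y c * y c') := by
  set q : ZMod p → ℝ := fun c => ∑ c', chi (c - c') * y c' with hq
  have hp0 : (0 : ℝ) ≤ p := Nat.cast_nonneg _
  have h1 : ∑ c, ∑ c', chi (c - c') * (y c * y c') = ∑ c, y c * q c := by
    refine Finset.sum_congr rfl fun c _ => ?_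
    rw [hq, Finset.mul_sum]
    refine Finset.sum_congr rfl fun c' _ => ?_
    ring
  have h2 : ∑ c, q c ^ 2 = (p : ℝ) * ∑ c, y c ^ 2 - (∑ c, y c) ^ 2 := by
    have e1 : ∀ c, q c ^ 2 = ∑ c', ∑ c'', (chi (c - c') * chi (c - c'')) * (y c' * y c'') := by
      intro c
      rw [sq, hq]
      rw [Finset.sum_mul_sum]
      refine Finset.sum_congr rfl fun c' _ => Finset.sum_congr rfl fun c'' _ => ?_
      ring
    simp_rw [e1]
    rw [Finset.sum_comm]
    have e2 : ∀ c' : ZMod p, ∑ c, ∑ c'', (chi (c - c') * chi (c - c'')) * (y c' * y c'') =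
        ∑ c'', ((if c' = c'' then (p : ℝ) else 0) - 1) * (y c' * y c'') := by
      intro c'
      rw [Finset.sum_comm]
      refine Finset.sum_congr rfl fun c'' _ => ?_
      rw [← Finset.sum_mul]
      congr 1
      by_cases h : c' = c''
      · subst h
        rw [chi_corr_self, if_pos rfl]
      · rw [chi_corr hp h, if_neg h]
        ring
    simp_rw [e2, sub_mul, one_mul, Finset.sum_sub_distrib, ite_mul, zero_mul,
      Finset.sum_ite_eq, if_pos (Finset.mem_univ _)]
    rw [sq (∑ c, y c), Finset.sum_mul_sum, Finset.mul_sum]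
    congr 1
    refine Finset.sum_congr rfl fun c _ => ?_
    ring
  have h3 : (∑ c, y c * q c) ^ 2 ≤ (∑ c, y c ^ 2) * ∑ c, q c ^ 2 :=
    Finset.sum_mul_sq_le_sq_mul_sq _ _ _
  have hY : 0 ≤ ∑ c, y c ^ 2 := Finset.sum_nonneg fun _ _ => sq_nonneg _
  have h4 : (∑ c, y c * q c) ^ 2 ≤ (√(p : ℝ) * ∑ c, y c ^ 2) ^ 2 := by
    rw [mul_pow, Real.sq_sqrt hp0]
    have : ∑ c, q c ^ 2 ≤ (p : ℝ) * ∑ c, y c ^ 2 := by
      rw [h2]
      have := sq_nonneg (∑ c, y c)
      linarith
    nlinarith
  have h5 := abs_le_of_sq_le_sq' h4 (by positivity)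
  rw [h1]
  exact h5.1

/-- the vector of a line -/
noncomputable def rr (c x : ZMod p) : ℝ := if x = c then 1 else chi (x - c)

theorem rr_pm (c x : ZMod p) : rr c x = 1 ∨ rr c x = -1 := by
  unfold rr
  split_ifs with h
  · left; rfl
  · exact chi_pm (sub_ne_zero.2 h)

theorem rr_self (c : ZMod p) : ∑ x, rr c x * rr c x = p := by
  have h1 : ∀ x : ZMod p, rr c x * rr c x = 1 := by
    intro x
    rcases rr_pm c x with h | h <;> rw [h] <;> norm_num
  simp [h1, ZMod.card]

theorem rr_corr (hp : 2 < p) {c c' : ZMod p} (h : c ≠ c') :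
    ∑ x, rr c x * rr c' x = -1 + chi (c - c') + chi (c' - c) := by
  have h1 : ∀ x : ZMod p, rr c x * rr c' x = chi (x - c) * chi (x - c') +
      (if x = c then chi (c - c') else 0) + (if x = c' then chi (c' - c) else 0) := by
    intro x
    unfold rr
    by_cases h1 : x = c
    · subst h1
      simp [h, chi_zero]
    · by_cases h2 : x = c'
      · subst h2
        simp [h1, chi_zero]
      · simp [h1, h2]
  simp_rw [h1]
  rw [Finset.sum_add_distrib, Finset.sum_add_distrib, chi_corr hp h,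
    Finset.sum_ite_eq' univ c, Finset.sum_ite_eq' univ c', if_pos (Finset.mem_univ _),
    if_pos (Finset.mem_univ _)]

end Pool.Agent.Lib.MP_b9b22b_co.AR
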