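import Pool.Agent.Lib.MP_b9b22b_co.AR.Iface
import Pool.Agent.Lib.MP_b9b22b_co.Lin.H63.Basic
import Pool.Agent.Lib.MP_b9b22b_co.Lin.H63.Final

/-!
FIN: the asymptotic values of `M_i(n)` and `m_i(n)` for `n - i ≥ (1 + ε) n ^ (2 / 3)`.
-/

set_option autoImplicit false

namespace Pool.Agent.Lib.MP_b9b22b_co.AR

open Finset

theorem two_thirds {m n : ℕ} (h : m ^ 3 ≤ n) : (m : ℝ) ^ 2 ≤ (n : ℝ) ^ ((2 : ℝ) / 3) := by
  have h1 : ((m : ℝ) ^ 3) ^ ((2 : ℝ) / 3) ≤ (n : ℝ) ^ ((2 : ℝ) / 3) := by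
    apply Real.rpow_le_rpow (by positivity) _ (by norm_num)
    exact_mod_cast h
  have h2 : ((m : ℝ) ^ 3) ^ ((2 : ℝ) / 3) = (m : ℝ) ^ 2 := by
    rw [← Real.rpow_natCast (m : ℝ) 3, ← Real.rpow_mul (Nat.cast_nonneg m),
      ← Real.rpow_natCast (m : ℝ) 2]
    norm_num
  rwa [h2] at h1

theorem fin_small (hU : UniStatement) (hL : Lin.LamStatement) (hC : Lin.ComplStatement) (ε : ℝ)
    (hε : 0 < ε) (hε1 : ε < 1) : ∃ C : ℕ, ∀ n i : ℕ,
    (C ≤ i → (1 + ε) * (n : ℝ) ^ ((2 : ℝ) / 3) ≤ n - i → ∀ x, IsGreatest (eigSet i n) x →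
      (1 - ε) * (√((n : ℝ) * (n - i) / i) / 2) ≤ x ∧ x ≤ (1 + ε) * (√((n : ℝ) * (n - i) / i) / 2)) ∧
    (C + i ≤ n → (1 + ε) * (n : ℝ) ^ ((2 : ℝ) / 3) ≤ i → ∀ x, IsLeast (eigSet i n) x →
      -(1 + ε) * (√((n : ℝ) * i / (n - i)) / 2) ≤ x ∧ x ≤ -(1 - ε) * (√((n : ℝ) * i / (n - i)) / 2)) := by
  obtain ⟨C₁, hC₁⟩ := hU ε hε
  obtain ⟨C₂, hC₂⟩ := hU (ε / 2) (by positivity)
  obtain ⟨m, hm⟩ := exists_nat_gt (8 / ε ^ 2)
  have hmε : 8 ≤ ε ^ 2 * m := by
    rw [div_lt_iff₀ (by positivity)] at hm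
    linarith
  have hε2 : ε ^ 2 ≤ ε := by nlinarith
  have hmR : (8 : ℝ) ≤ m := by
    have : (0 : ℝ) ≤ m := Nat.cast_nonneg _
    nlinarith
  have hm8 : 8 ≤ m := by exact_mod_cast hmR
  have hm3 : m ≤ m ^ 3 := Nat.le_self_pow (by norm_num) m
  have hmε' : 8 ≤ ε * m := by nlinarith
  refine ⟨max (max C₁ C₂) (m ^ 3 + 2), fun n i => ⟨?_, ?_⟩⟩
  · intro h1 h2 x hx
    have hiC : C₁ ≤ i := (le_max_left _ _).trans ((le_max_left _ _).trans h1)
    have hiB : m ^ 3 + 2 ≤ i := (le_max_right _ _).trans h1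
    have him : m + 2 ≤ i := by omega
    have hiR : (m : ℝ) + 2 ≤ i := by exact_mod_cast him
    have hi1 : 1 ≤ i := by omega
    have hpos : 0 ≤ (n : ℝ) ^ ((2 : ℝ) / 3) := by positivity
    have hin0 : (i : ℝ) ≤ n := by nlinarith
    have hin1 : i ≤ n := by exact_mod_cast hin0
    have h23 := two_thirds (m := m) (n := n) (by omega)
    have hNI : (m : ℝ) ^ 2 ≤ n - i := by nlinarith
    have hNI' : (m : ℝ) ≤ n - i := by nlinarith
    have hin : (i : ℝ) < n := by linarith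
    have hin' : i < n := by exact_mod_cast hin
    constructor
    · obtain ⟨-, G, hG⟩ := hL n i _ hi1 (hC₁ n i hiC h2)
      have := hx.2 ⟨G, rfl⟩
      linarith
    · obtain ⟨G, rfl⟩ := hx.1
      have h3 := lam_le_rel G (i := i) (by omega) (by rw [Fintype.card_fin]; exact hin'.le)
      rw [Fintype.card_fin] at h3
      refine h3.trans (Lin.H63.upper_real hε hin (by linarith) ?_ ?_)
      · nlinarith
      · nlinarith
  · intro h1 h2 x hx
    have hC2' : C₂ ≤ n - i + 2 := by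
      have := (le_max_right C₁ C₂).trans (le_max_left (max C₁ C₂) (m ^ 3 + 2))
      omega
    have hiB : m ^ 3 + 2 + i ≤ n := by
      have := le_max_right (max C₁ C₂) (m ^ 3 + 2)
      omega
    have him : m + 2 + i ≤ n := by omega
    have hiR : (m : ℝ) + 2 + i ≤ n := by exact_mod_cast him
    have hi0 : (0 : ℝ) ≤ i := Nat.cast_nonneg _
    have hin : (i : ℝ) < n := by linarith
    have hin' : i < n := by exact_mod_cast hin
    have hpos : 0 ≤ (n : ℝ) ^ ((2 : ℝ) / 3) := by positivity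
    have h23 := two_thirds (m := m) (n := n) (by omega)
    have hI : (m : ℝ) ^ 2 ≤ i := by nlinarith
    have hI' : (m : ℝ) ≤ i := by nlinarith
    have hi8 : (8 : ℝ) ≤ i := by linarith
    have hi1 : 8 ≤ i := by exact_mod_cast hi8
    constructor
    · obtain ⟨G, rfl⟩ := hx.1
      have h3 := le_lam_rel G (i := i) (by omega) (by rw [Fintype.card_fin]; exact hin'.le)
      rw [Fintype.card_fin] at h3
      have h4 := Lin.H63.lower_real (N := n) (I := i) hε hin (by linarith) (by nlinarith)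
      linarith
    · have hsub : ((n - i + 2 : ℕ) : ℝ) = (n : ℝ) - i + 2 := by
        rw [Nat.cast_add, Nat.cast_sub hin'.le]; norm_num
      have h3 : (1 + ε / 2) * (n : ℝ) ^ ((2 : ℝ) / 3) ≤ n - ((n - i + 2 : ℕ) : ℝ) := by
        rw [hsub]
        have : 2 ≤ ε / 2 * (n : ℝ) ^ ((2 : ℝ) / 3) := by nlinarith
        nlinarith
      have h4 := hC₂ n (n - i + 2) hC2' h3
      obtain ⟨G, hG⟩ := hC n (n - i + 1) _ (by omega) h4
      have e1 : n - (n - i + 1) + 1 = i := by omega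
      rw [e1] at hG
      have h5 := hx.2 ⟨G, rfl⟩
      rw [hsub] at hG
      have h6 := Lin.H63.compl_real (N := n) (I := i) hε hε1 hin (by linarith) (by nlinarith)
        (by nlinarith)
      linarith

theorem fin_of (hU : UniStatement) : FinStatement := by
  intro ε hε
  obtain ⟨C, hC⟩ := fin_small hU Lin.H63.lamS Lin.H63.compl (min ε (1 / 2)) (by positivity)
    (by have := min_le_right ε (1 / 2); linarith)
  have hle : min ε (1 / 2) ≤ ε := min_le_left _ _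
  refine ⟨C, fun n i => ⟨fun h1 h2 x hx => ?_, fun h1 h2 x hx => ?_⟩⟩
  · have hpos : 0 ≤ (n : ℝ) ^ ((2 : ℝ) / 3) := by positivity
    obtain ⟨a, b⟩ := (hC n i).1 h1 (by nlinarith) x hx
    have hs : 0 ≤ √((n : ℝ) * (n - i) / i) / 2 := by positivity
    constructor
    · nlinarith
    · nlinarith
  · have hpos : 0 ≤ (n : ℝ) ^ ((2 : ℝ) / 3) := by positivity
    obtain ⟨a, b⟩ := (hC n i).2 h1 (by nlinarith) x hx
    have hs : 0 ≤ √((n : ℝ) * i / (n - i)) / 2 := by positivity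
    constructor
    · nlinarith
    · nlinarith

end Pool.Agent.Lib.MP_b9b22b_co.AR
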