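import Pool.Agent.Lib.MP_b9b22b_co.Lin.Base

/-!
The asymptotic range: interfaces. The formula M_i(n) ~ sqrt(n (n - i) / i) / 2 down to n - i of order
n^(2/3), lower bounds down to n - i of order sqrt n, and an upper bound below that.
-/

set_option autoImplicit false

namespace Pool.Agent.Lib.MP_b9b22b_co.AR

open Finset

/-- LIN: lines of an affine plane over `ZMod p`, each carrying `p` almost orthogonal vectors. -/
def LinesStatement : Prop :=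
  ∀ (p n i : ℕ), p.Prime → 2 < p → n ≤ p ^ 3 → i + p ^ 2 + p ≤ n →
    Lin.Big n i (((p : ℝ) - 2 * √(p : ℝ) - 1) / 2)

/-- MUB: families of mutually unbiased bases (sign functions on a set of `k` elements). -/
def MubStatement : Prop :=
  ∀ t : ℕ, 1 ≤ t → ∃ v : Fin (4 ^ t / 2) → Fin (4 ^ t) → Fin (4 ^ t) → ℝ,
    (∀ a b x, v a b x = 1 ∨ v a b x = -1) ∧
    (∀ a b b', b ≠ b' → ∑ x, v a b x * v a b' x = 0) ∧
    (∀ a a' b b', a ≠ a' → ∑ x, v a b x * v a' b' x = 2 ^ t ∨ ∑ x, v a b x * v a' b' x = -2 ^ t)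

/-- KER: from the unbiased bases (and the standard basis) to a graph. -/
def KerStatement : Prop :=
  ∀ (t n i : ℕ), 1 ≤ t → 2 * n ≤ 4 ^ t * (4 ^ t + 2) → i + 4 ^ t ≤ n →
    Lin.Big n i ((2 : ℝ) ^ t / 2 - 1)

/-- ABS: the relative bound and the absolute bound in one inequality. -/
def AbsStatement : Prop :=
  ∀ (n i : ℕ) (G : SimpleGraph (Fin n)), 1 ≤ i → i < n → 0 ≤ lam G i →
    (n : ℝ) * (2 * lam G i + 1) +
      (2 * n - (n - i + 1) * (n - i + 2)) * √(lam G i * (lam G i + 1)) ≤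
      √((n - i + 1) * (n * (n - 1 + (2 * lam G i + 1) ^ 2)))

/-- ABA: the asymptotic form of ABS. -/
def AbaStatement : Prop :=
  ∀ ε : ℝ, 0 < ε → ∃ C : ℕ, ∀ n i : ℕ, i < n → C ≤ n - i → (n - i) ^ 2 ≤ 2 * n →
    ∀ G : SimpleGraph (Fin n),
      lam G i ≤ (1 + ε) * (2 * n / (4 * n - ((n - i : ℕ) : ℝ) ^ 2)) * (√((n - i : ℕ) : ℝ) / 2)

/-- ABB: the same for the smallest possible eigenvalues (complement). -/
def AbbStatement : Prop :=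
  ∀ ε : ℝ, 0 < ε → ∃ C : ℕ, ∀ n i : ℕ, i ≤ n → C ≤ i → i ^ 2 ≤ 2 * n →
    ∀ G : SimpleGraph (Fin n),
      -((1 + ε) * (2 * n / (4 * n - (i : ℝ) ^ 2)) * (√(i : ℝ) / 2)) ≤ lam G i

/-- UNI: the uniform lower bound. -/
def UniStatement : Prop :=
  ∀ ε : ℝ, 0 < ε → ∃ C : ℕ, ∀ n i : ℕ, C ≤ i → (1 + ε) * (n : ℝ) ^ ((2 : ℝ) / 3) ≤ n - i →
    Lin.Big n i ((1 - ε) * √(n * (n - i) / i) / 2)

/-- FIN: the asymptotic values. -/
def FinStatement : Prop :=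
  ∀ ε : ℝ, 0 < ε → ∃ C : ℕ, ∀ n i : ℕ,
    (C ≤ i → (1 + ε) * (n : ℝ) ^ ((2 : ℝ) / 3) ≤ n - i → ∀ x, IsGreatest (eigSet i n) x →
      (1 - ε) * (√((n : ℝ) * (n - i) / i) / 2) ≤ x ∧ x ≤ (1 + ε) * (√((n : ℝ) * (n - i) / i) / 2)) ∧
    (C + i ≤ n → (1 + ε) * (n : ℝ) ^ ((2 : ℝ) / 3) ≤ i → ∀ x, IsLeast (eigSet i n) x →
      -(1 + ε) * (√((n : ℝ) * i / (n - i)) / 2) ≤ x ∧ x ≤ -(1 - ε) * (√((n : ℝ) * i / (n - i)) / 2))

end Pool.Agent.Lib.MP_b9b22b_co.AR
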