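import Pool.Agent.Lib.MP_b9b22b_co.AR.Iface
import Pool.Agent.Lib.MP_c5838f_co.H61.Points

/-!
MUB: the Kerdock family gives `4^t / 2` mutually unbiased bases of sign functions on a set of
`4^t` elements.
-/

set_option autoImplicit false

namespace Pool.Agent.Lib.MP_b9b22b_co.AR

open Finset Pool.Agent.Lib.MP_c5838f_co.H61

theorem mub20 : MubStatement := by
  intro t ht
  have : Fact (Nat.Prime 2) := ⟨Nat.prime_two⟩
  let K := GaloisField 2 (2 * t - 1)
  have : Fintype K := Fintype.ofFinite K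
  have hn : (2 * t - 1) ≠ 0 := by omega
  have hcardN : Fintype.card K = 2 ^ (2 * t - 1) := by
    rw [← Nat.card_eq_fintype_card]; exact GaloisField.card 2 _ hn
  have hfin : Module.finrank (ZMod 2) K = 2 * t - 1 := GaloisField.finrank 2 hn
  have hodd : Odd (Module.finrank (ZMod 2) K) := by
    rw [hfin]; exact ⟨t - 1, by omega⟩
  obtain ⟨q, hq⟩ := exists_q K
  have h4 : 4 ^ t = 2 * 2 ^ (2 * t - 1) := by
    have : 2 * t = (2 * t - 1) + 1 := by omega
    calc 4 ^ t = 2 ^ (2 * t) := by rw [pow_mul]; norm_num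
      _ = 2 ^ ((2 * t - 1) + 1) := by rw [← this]
      _ = 2 * 2 ^ (2 * t - 1) := by ring
  have e1 : Fintype.card (Fin (4 ^ t / 2)) = Fintype.card K := by
    rw [Fintype.card_fin, hcardN, h4]; omega
  have e2 : Fintype.card (Fin (4 ^ t)) = Fintype.card (K × ZMod 2) := by
    rw [Fintype.card_fin, Fintype.card_prod, ZMod.card, hcardN, h4]; ring
  let E1 : Fin (4 ^ t / 2) ≃ K := Fintype.equivOfCardEq e1
  let E2 : Fin (4 ^ t) ≃ K × ZMod 2 := Fintype.equivOfCardEq e2
  let P : Fin (4 ^ t / 2) → Fin (4 ^ t) → Par K := fun a b => (E1 a, (E2 b).1, (E2 b).2, 0)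
  have hsum : ∀ a b a' b', ∑ x : Fin (4 ^ t), sg (ph q (P a b) (E2 x)) * sg (ph q (P a' b') (E2 x))
      = S q (P a b) (P a' b') := by
    intro a b a' b'
    exact Equiv.sum_comp E2 (fun v => sg (ph q (P a b) v) * sg (ph q (P a' b') v))
  refine ⟨fun a b x => sg (ph q (P a b) (E2 x)), ?_, ?_, ?_⟩
  · intro a b x
    rcases zmod2_cases (ph q (P a b) (E2 x)) with h | h
    · left; change sg (ph q (P a b) (E2 x)) = 1; rw [h, sg_zero]
    · right; change sg (ph q (P a b) (E2 x)) = -1; rw [h, sg_one]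
  · intro a b b' hbb
    rw [hsum]
    refine S_orth q rfl ?_
    rintro ⟨h1, h2⟩
    exact hbb (E2.injective (Prod.ext h1 h2))
  · intro a a' b b' haa
    rw [hsum]
    have h := S_sq hodd q hq (p := P a b) (p' := P a' b') (fun h => haa (E1.injective h))
    have h' : (2 : ℝ) * Fintype.card K = ((2 : ℝ) ^ t) ^ 2 := by
      rw [hcardN]
      have : ((2 : ℝ) ^ t) ^ 2 = ((4 ^ t : ℕ) : ℝ) := by
        push_cast; rw [← pow_mul, mul_comm, pow_mul]; norm_num
      rw [this, h4]; push_cast; ring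
    rw [h'] at h
    exact sq_eq_sq_iff_eq_or_eq_neg.mp h

end Pool.Agent.Lib.MP_b9b22b_co.AR
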