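import Pool.Agent.Lib.MP_b9b22b_co.AR.Lines
import Pool.Agent.Lib.MP_b9b22b_co.AR.Mub20

/-!
KER: from mutually unbiased bases (with the standard basis) to a graph with many large eigenvalues.
-/

set_option autoImplicit false

namespace Pool.Agent.Lib.MP_b9b22b_co.AR

open Finset

section Ker

variable {t : ℕ} (v : Fin (4 ^ t / 2) → Fin (4 ^ t) → Fin (4 ^ t) → ℝ)

/-- the scaled vectors; `none` is the standard basis -/
noncomputable def kw (u : Option (Fin (4 ^ t / 2)) × Fin (4 ^ t)) (z : Fin (4 ^ t)) : ℝ :=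
  match u.1 with
  | none => if u.2 = z then √(2 ^ t) else 0
  | some a => v a u.2 z / √(2 ^ t)

/-- the graph -/
noncomputable def kerGraph : SimpleGraph (Option (Fin (4 ^ t / 2)) × Fin (4 ^ t)) where
  Adj u u' := u ≠ u' ∧ (u.1 = u'.1 ∨ ∑ z, kw v u z * kw v u' z = -1)
  symm := by
    constructor
    rintro u u' ⟨h1, h2⟩
    refine ⟨h1.symm, ?_⟩
    rcases h2 with h2 | h2
    · exact Or.inl h2.symm
    · refine Or.inr ?_
      rw [← h2]
      exact Finset.sum_congr rfl fun z _ => mul_comm _ _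
  loopless := by
    constructor
    rintro u ⟨h, -⟩
    exact h rfl

variable {v}

theorem kw_ne (h1 : ∀ a b x, v a b x = 1 ∨ v a b x = -1)
    (h3 : ∀ a a' b b', a ≠ a' → ∑ x, v a b x * v a' b' x = 2 ^ t ∨
      ∑ x, v a b x * v a' b' x = -2 ^ t)
    {u u' : Option (Fin (4 ^ t / 2)) × Fin (4 ^ t)} (h : u.1 ≠ u'.1) :
    ∑ z, kw v u z * kw v u' z = 1 ∨ ∑ z, kw v u z * kw v u' z = -1 := by
  have hs : (0 : ℝ) < 2 ^ t := by positivity
  have hr : √((2 : ℝ) ^ t) * √((2 : ℝ) ^ t) = 2 ^ t := Real.mul_self_sqrt hs.le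
  have hr0 : √((2 : ℝ) ^ t) ≠ 0 := (Real.sqrt_pos.2 hs).ne'
  obtain ⟨a, b⟩ := u
  obtain ⟨a', b'⟩ := u'
  rcases a with _ | a <;> rcases a' with _ | a'
  · exact absurd rfl h
  · have e : ∑ z, kw v (none, b) z * kw v (some a', b') z = v a' b' b := by
      have e1 : ∀ z, kw v (none, b) z * kw v (some a', b') z =
          if b = z then v a' b' b else 0 := by
        intro z
        change (if b = z then √((2 : ℝ) ^ t) else 0) * (v a' b' z / √(2 ^ t)) = _
        split_ifs with hz
        · subst hz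
          field_simp
        · ring
      simp_rw [e1]
      rw [Finset.sum_ite_eq, if_pos (Finset.mem_univ _)]
    rw [e]
    exact h1 _ _ _
  · have e : ∑ z, kw v (some a, b) z * kw v (none, b') z = v a b b' := by
      have e1 : ∀ z, kw v (some a, b) z * kw v (none, b') z =
          if b' = z then v a b b' else 0 := by
        intro z
        change (v a b z / √(2 ^ t)) * (if b' = z then √((2 : ℝ) ^ t) else 0) = _
        split_ifs with hz
        · subst hz
          field_simp
        · ring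
      simp_rw [e1]
      rw [Finset.sum_ite_eq, if_pos (Finset.mem_univ _)]
    rw [e]
    exact h1 _ _ _
  · have haa : a ≠ a' := fun h' => h (by rw [h'])
    have e : ∑ z, kw v (some a, b) z * kw v (some a', b') z =
        (∑ z, v a b z * v a' b' z) / 2 ^ t := by
      rw [Finset.sum_div]
      refine Finset.sum_congr rfl fun z _ => ?_
      change (v a b z / √(2 ^ t)) * (v a' b' z / √(2 ^ t)) = _
      rw [div_mul_div_comm, hr]
    rw [e]
    rcases h3 a a' b b' haa with h4 | h4 <;> rw [h4]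
    · left; exact div_self hs.ne'
    · right; rw [neg_div, div_self hs.ne']

theorem kw_eq (h1 : ∀ a b x, v a b x = 1 ∨ v a b x = -1)
    (h2 : ∀ a b b', b ≠ b' → ∑ x, v a b x * v a b' x = 0)
    {u u' : Option (Fin (4 ^ t / 2)) × Fin (4 ^ t)} (h : u.1 = u'.1) :
    ∑ z, kw v u z * kw v u' z = if u.2 = u'.2 then 2 ^ t else 0 := by
  have hs : (0 : ℝ) < 2 ^ t := by positivity
  have hr : √((2 : ℝ) ^ t) * √((2 : ℝ) ^ t) = 2 ^ t := Real.mul_self_sqrt hs.le
  obtain ⟨a, b⟩ := u
  obtain ⟨a', b'⟩ := u'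
  change a = a' at h
  subst h
  change _ = if b = b' then (2 : ℝ) ^ t else 0
  rcases a with _ | a
  · have e1 : ∀ z, kw v (none, b) z * kw v (none, b') z =
        if b = z then (if b = b' then (2 : ℝ) ^ t else 0) else 0 := by
      intro z
      change (if b = z then √((2 : ℝ) ^ t) else 0) * (if b' = z then √((2 : ℝ) ^ t) else 0) = _
      by_cases hz : b = z
      · by_cases hz' : b = b'
        · rw [if_pos hz, if_pos hz, if_pos hz', if_pos (by rw [← hz', hz]), hr]
        · rw [if_pos hz, if_pos hz, if_neg hz', if_neg (fun h' => hz' (by rw [hz, h']))]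
          ring
      · rw [if_neg hz, if_neg hz]
        ring
    simp_rw [e1]
    rw [Finset.sum_ite_eq, if_pos (Finset.mem_univ _)]
  · have e : ∑ z, kw v (some a, b) z * kw v (some a, b') z =
        (∑ z, v a b z * v a b' z) / 2 ^ t := by
      rw [Finset.sum_div]
      refine Finset.sum_congr rfl fun z _ => ?_
      change (v a b z / √(2 ^ t)) * (v a b' z / √(2 ^ t)) = _
      rw [div_mul_div_comm, hr]
    rw [e]
    split_ifs with hb
    · subst hb
      have e2 : ∀ z, v a b z * v a b z = 1 := by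
        intro z
        rcases h1 a b z with h | h <;> rw [h] <;> norm_num
      simp_rw [e2]
      rw [Finset.sum_const, Finset.card_univ, Fintype.card_fin, nsmul_eq_mul, mul_one,
        div_eq_iff hs.ne']
      push_cast
      rw [← mul_pow]
      norm_num
    · rw [h2 a b b' hb, zero_div]

/-- the correction matrix -/
noncomputable def kE (u u' : Option (Fin (4 ^ t / 2)) × Fin (4 ^ t)) : ℝ :=
  (if u.1 = u'.1 then 1 else 0) + (if u = u' then (2 : ℝ) ^ t - 2 else 0)

open scoped Classical in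
theorem kT (h1 : ∀ a b x, v a b x = 1 ∨ v a b x = -1)
    (h2 : ∀ a b b', b ≠ b' → ∑ x, v a b x * v a b' x = 0)
    (h3 : ∀ a a' b b', a ≠ a' → ∑ x, v a b x * v a' b' x = 2 ^ t ∨
      ∑ x, v a b x * v a' b' x = -2 ^ t)
    (u u' : Option (Fin (4 ^ t / 2)) × Fin (4 ^ t)) :
    (if (kerGraph v).Adj u u' then (2 : ℝ) else 0) =
      1 - (∑ z, kw v u z * kw v u' z) + kE u u' := by
  unfold kE
  by_cases h : u.1 = u'.1
  · by_cases h' : u.2 = u'.2
    · have huu : u = u' := Prod.ext h h'
      subst huu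
      rw [if_neg ((kerGraph v).loopless.irrefl u), kw_eq h1 h2 rfl, if_pos rfl, if_pos rfl,
        if_pos rfl]
      ring
    · have huu : u ≠ u' := fun h4 => h' (by rw [h4])
      rw [if_pos (show (kerGraph v).Adj u u' from ⟨huu, Or.inl h⟩), kw_eq h1 h2 h, if_neg h',
        if_pos h, if_neg huu]
      ring
  · have huu : u ≠ u' := fun h4 => h (by rw [h4])
    rw [if_neg h, if_neg huu]
    rcases kw_ne h1 h3 h with h4 | h4
    · rw [if_neg, h4]
      · ring
      · rintro ⟨-, h5 | h5⟩
        · exact h h5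
        · rw [h4] at h5
          norm_num at h5
    · rw [if_pos (show (kerGraph v).Adj u u' from ⟨huu, Or.inr h4⟩), h4]
      ring

omit v in
theorem kE_form (F : Option (Fin (4 ^ t / 2)) × Fin (4 ^ t) → ℝ) :
    ((2 : ℝ) ^ t - 2) * ∑ u, F u ^ 2 ≤ ∑ u, ∑ u', kE u u' * (F u * F u') := by
  have h1 : ∑ u, ∑ u', kE u u' * (F u * F u') =
      ∑ a : Option (Fin (4 ^ t / 2)), (∑ b, F (a, b)) ^ 2 + ((2 : ℝ) ^ t - 2) * ∑ u, F u ^ 2 := by
    unfold kE
    simp_rw [add_mul, ite_mul, zero_mul, one_mul, Finset.sum_add_distrib]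
    congr 1
    · rw [Fintype.sum_prod_type]
      refine Finset.sum_congr rfl fun a _ => ?_
      rw [sq, Finset.sum_mul_sum]
      refine Finset.sum_congr rfl fun x _ => ?_
      rw [Fintype.sum_prod_type, Finset.sum_eq_single a]
      · refine Finset.sum_congr rfl fun y _ => ?_
        rw [if_pos rfl]
      · intro a' _ ha
        refine Finset.sum_eq_zero fun y _ => ?_
        rw [if_neg (fun h => ha h.symm)]
      · intro h
        exact absurd (Finset.mem_univ _) h
    · rw [Finset.mul_sum]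
      refine Finset.sum_congr rfl fun u _ => ?_
      rw [Finset.sum_ite_eq, if_pos (Finset.mem_univ _)]
      ring
  rw [h1]
  have h2 : 0 ≤ ∑ a : Option (Fin (4 ^ t / 2)), (∑ b, F (a, b)) ^ 2 :=
    Finset.sum_nonneg fun a _ => sq_nonneg _
  linarith

end Ker

theorem ker20 : KerStatement := by
  intro t n i ht hn hi
  obtain ⟨v, h1, h2, h3⟩ := mub20 t ht
  have heven : 2 * (4 ^ t / 2) = 4 ^ t := by
    obtain ⟨s, rfl⟩ : ∃ s, t = s + 1 := ⟨t - 1, by omega⟩
    rw [pow_succ]
    omega
  have hcard : Fintype.card (Fin n) ≤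
      Fintype.card (Option (Fin (4 ^ t / 2)) × Fin (4 ^ t)) := by
    rw [Fintype.card_fin, Fintype.card_prod, Fintype.card_option, Fintype.card_fin,
      Fintype.card_fin]
    have h4 : 2 * ((4 ^ t / 2 + 1) * 4 ^ t) = 4 ^ t * (4 ^ t + 2) := by
      calc 2 * ((4 ^ t / 2 + 1) * 4 ^ t) = (2 * (4 ^ t / 2) + 2) * 4 ^ t := by ring
        _ = (4 ^ t + 2) * 4 ^ t := by rw [heven]
        _ = 4 ^ t * (4 ^ t + 2) := by ring
    omega
  obtain ⟨e⟩ := Function.Embedding.nonempty_of_card_le hcard
  refine big_gen (K := Empty) e e.injective (kerGraph v) (kw v)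
    (fun k _ => k.elim) kE _ (kT h1 h2 h3) ?_ ?_
  · intro F _ _
    have h := kE_form F
    have h4 := sq_nonneg (∑ u, F u)
    have h5 : 2 * ((2 : ℝ) ^ t / 2 - 1) = (2 : ℝ) ^ t - 2 := by ring
    rw [h5]
    linarith
  · rw [Fintype.card_fin]
    simpa using hi

end Pool.Agent.Lib.MP_b9b22b_co.AR
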