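import Pool.Agent.Lib.MP_b9b22b_co.AR.Iface
import Pool.Agent.Lib.MP_b9b22b_co.AR.Chi
import Pool.Agent.Lib.MP_b9b22b_co.Lin.H63.Basic

/-!
LIN: the graph of the lines of an affine plane.
-/

set_option autoImplicit false

namespace Pool.Agent.Lib.MP_b9b22b_co.AR

open Finset Module

section Gen

variable {V Z : Type*} [Fintype V] [Fintype Z]

open scoped Classical in
/-- the general form of the lower bound: `2 [adjacent] = 1 - δ - W + E`, `W` a Gram matrix, and `E`
large on the common kernel of finitely many linear functionals -/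
theorem big_gen {n i : ℕ} {K : Type*} [Fintype K] (e : Fin n → V) (he : Function.Injective e)
    (G : SimpleGraph V) (w : V → Z → ℝ) (g : K → V → ℝ) (E : V → V → ℝ)
    (θ : ℝ)
    (hT : ∀ u v, (if G.Adj u v then (2 : ℝ) else 0) =
      1 - (∑ z, w u z * w v z) + E u v)
    (hE : ∀ F : V → ℝ, (∀ z, ∑ u, w u z * F u = 0) → (∀ k, ∑ u, g k u * F u = 0) →
      2 * θ * ∑ u, F u ^ 2 ≤ (∑ u, F u) ^ 2 + ∑ u, ∑ v, E u v * (F u * F v))
    (hi : i + (Fintype.card Z + Fintype.card K) ≤ n) : Lin.Big n i θ := by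
  -- the linear constraints
  let M : (Fin n → ℝ) →ₗ[ℝ] (Z ⊕ K → ℝ) :=
    { toFun := fun f s => Sum.elim (fun z => ∑ v, w (e v) z * f v) (fun k => ∑ v, g k (e v) * f v) s
      map_add' := by
        intro f f'
        funext s
        rcases s with z | k
        · simp [mul_add, Finset.sum_add_distrib]
        · simp [mul_add, Finset.sum_add_distrib]
      map_smul' := by
        intro c f
        funext s
        rcases s with z | k
        · simp only [Sum.elim_inl, Pi.smul_apply, smul_eq_mul, RingHom.id_apply, Finset.mul_sum]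
          refine Finset.sum_congr rfl fun v _ => ?_
          ring
        · simp only [Sum.elim_inr, Pi.smul_apply, smul_eq_mul, RingHom.id_apply, Finset.mul_sum]
          refine Finset.sum_congr rfl fun v _ => ?_
          ring }
  have hdim : i ≤ finrank ℝ (LinearMap.ker M) := by
    have h1 := LinearMap.finrank_range_add_finrank_ker M
    have h2 : finrank ℝ (LinearMap.range M) ≤ Fintype.card Z + Fintype.card K := by
      have := Submodule.finrank_le (LinearMap.range M)
      simpa using this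
    have h3 : finrank ℝ (Fin n → ℝ) = n := by simp
    omega
  obtain ⟨L, hL, hLk⟩ := Lin.H63.exists_param_sub _ hdim
  refine ⟨G.comap e, L, hL, fun f => ?_⟩
  have hk := hLk f
  rw [LinearMap.mem_ker] at hk
  set x : Fin n → ℝ := L f with hx
  -- extension by zero
  set F : V → ℝ := fun u => if h : ∃ v, e v = u then x h.choose else 0 with hF
  have hFe : ∀ v, F (e v) = x v := by
    intro v
    have h : ∃ v', e v' = e v := ⟨v, rfl⟩
    rw [hF]
    simp only [dif_pos h]
    congr 1
    exact he h.choose_spec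
  have hF0 : ∀ u, u ∉ Set.range e → F u = 0 := by
    intro u hu
    rw [hF]
    simp only
    rw [dif_neg]
    rintro ⟨v, hv⟩
    exact hu ⟨v, hv⟩
  have hs : ∀ a : V → ℝ, ∑ v, a (e v) * x v = ∑ u, a u * F u := by
    intro a
    refine Fintype.sum_of_injective e he _ _ ?_ ?_
    · intro u hu
      rw [hF0 u hu, mul_zero]
    · intro v
      rw [hFe]
  have hs2 : ∑ v, x v ^ 2 = ∑ u, F u ^ 2 := by
    have := hs F
    simp_rw [hFe] at this
    simpa [sq] using this
  have hz : ∀ z, ∑ u, w u z * F u = 0 := by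
    intro z
    rw [← hs (fun u => w u z)]
    have := congrFun hk (Sum.inl z)
    exact this
  have hg : ∀ k, ∑ u, g k u * F u = 0 := by
    intro k
    rw [← hs (fun u => g k u)]
    have := congrFun hk (Sum.inr k)
    exact this
  have key := hE F hz hg
  have hsum : ∑ v, ∑ v', (if G.Adj (e v) (e v') then x v * x v' else 0) =
      ∑ u, ∑ u', (if G.Adj u u' then F u * F u' else 0) := by
    have e1 : ∀ v, ∑ v', (if G.Adj (e v) (e v') then x v * x v' else 0) =
        (∑ u', (if G.Adj (e v) u' then F u' else 0)) * x v := by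
      intro v
      rw [Finset.sum_mul]
      have := hs (fun u' => if G.Adj (e v) u' then x v else 0)
      rw [show ∑ u', (if G.Adj (e v) u' then F u' else 0) * x v =
        ∑ u', (if G.Adj (e v) u' then x v else 0) * F u' from
        Finset.sum_congr rfl fun u' _ => by split_ifs <;> ring]
      rw [← this]
      refine Finset.sum_congr rfl fun v' _ => ?_
      split_ifs <;> ring
    simp_rw [e1]
    rw [hs (fun u => ∑ u', (if G.Adj u u' then F u' else 0))]
    refine Finset.sum_congr rfl fun u _ => ?_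
    rw [Finset.sum_mul]
    refine Finset.sum_congr rfl fun u' _ => ?_
    split_ifs <;> ring
  suffices h : θ * ∑ v, x v ^ 2 ≤ ∑ v, ∑ v', (if G.Adj (e v) (e v') then x v * x v' else 0) by
    refine h.trans (le_of_eq ?_)
    refine Finset.sum_congr rfl fun v _ => Finset.sum_congr rfl fun v' _ => ?_
    by_cases hadj : G.Adj (e v) (e v')
    · rw [if_pos hadj, if_pos (show (G.comap e).Adj v v' from hadj)]
    · rw [if_neg hadj, if_neg (show ¬ (G.comap e).Adj v v' from hadj)]
  rw [hsum, hs2]
  have h2 : 2 * ∑ u, ∑ u', (if G.Adj u u' then F u * F u' else 0) =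
      (∑ u, F u) ^ 2 + ∑ u, ∑ v, E u v * (F u * F v) := by
    have e1 : 2 * ∑ u, ∑ u', (if G.Adj u u' then F u * F u' else 0) =
        ∑ u, ∑ u', (if G.Adj u u' then (2 : ℝ) else 0) * (F u * F u') := by
      rw [Finset.mul_sum]
      refine Finset.sum_congr rfl fun u _ => ?_
      rw [Finset.mul_sum]
      refine Finset.sum_congr rfl fun u' _ => ?_
      split_ifs <;> ring
    rw [e1]
    simp_rw [hT, add_mul, sub_mul, one_mul, Finset.sum_add_distrib, Finset.sum_sub_distrib]
    have e2 : ∑ u, ∑ v, F u * F v = (∑ u, F u) ^ 2 := by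
      rw [sq, Finset.sum_mul_sum]
    have e3 : ∑ u, ∑ v, (∑ z, w u z * w v z) * (F u * F v) = 0 := by
      have e4 : ∀ u v, (∑ z, w u z * w v z) * (F u * F v) = ∑ z, (w u z * F u) * (w v z * F v) := by
        intro u v
        rw [Finset.sum_mul]
        refine Finset.sum_congr rfl fun z _ => ?_
        ring
      simp_rw [e4]
      rw [show ∑ u, ∑ v, ∑ z, (w u z * F u) * (w v z * F v) =
        ∑ z, (∑ u, w u z * F u) * (∑ v, w v z * F v) from ?_]
      · refine Finset.sum_eq_zero fun z _ => ?_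
        rw [hz, zero_mul]
      · simp_rw [Finset.sum_mul_sum]
        rw [Finset.sum_comm]
        rw [Finset.sum_comm]
        symm
        rw [Finset.sum_comm]
        refine Finset.sum_congr rfl fun u _ => ?_
        rw [Finset.sum_comm]
    rw [e2, e3]
    ring
  linarith

end Gen

section Lines

variable {p : ℕ} [Fact p.Prime]

/-- the vector of the vertex `(a, b, c)`, supported on the line `y = a x + b` -/
noncomputable def lw (u : ZMod p × ZMod p × ZMod p) (z : ZMod p × ZMod p) : ℝ :=
  if z.2 = u.1 * z.1 + u.2.1 then rr u.2.2 z.1 else 0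

theorem lw_sum (u v : ZMod p × ZMod p × ZMod p) : ∑ z, lw u z * lw v z =
    ∑ x, (if u.1 * x + u.2.1 = v.1 * x + v.2.1 then rr u.2.2 x * rr v.2.2 x else 0) := by
  rw [Fintype.sum_prod_type]
  refine Finset.sum_congr rfl fun x _ => ?_
  unfold lw
  simp only
  rw [Finset.sum_eq_single (u.1 * x + u.2.1)]
  · rw [if_pos rfl]
    split_ifs <;> simp
  · intro y _ hy
    rw [if_neg hy, zero_mul]
  · intro h
    exact absurd (Finset.mem_univ _) h

theorem lw_ne {u v : ZMod p × ZMod p × ZMod p} (h : u.1 ≠ v.1) :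
    ∑ z, lw u z * lw v z = 1 ∨ ∑ z, lw u z * lw v z = -1 := by
  rw [lw_sum]
  have hd : u.1 - v.1 ≠ 0 := sub_ne_zero.2 h
  have h1 : ∀ x : ZMod p, (u.1 * x + u.2.1 = v.1 * x + v.2.1) ↔
      x = (v.2.1 - u.2.1) * (u.1 - v.1)⁻¹ := by
    intro x
    rw [eq_mul_inv_iff_mul_eq₀ hd]
    constructor
    · intro h2
      linear_combination h2
    · intro h2
      linear_combination h2
  simp_rw [h1]
  rw [Finset.sum_ite_eq' univ, if_pos (Finset.mem_univ _)]
  rcases rr_pm u.2.2 ((v.2.1 - u.2.1) * (u.1 - v.1)⁻¹) with h2 | h2 <;>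
    rcases rr_pm v.2.2 ((v.2.1 - u.2.1) * (u.1 - v.1)⁻¹) with h3 | h3 <;> rw [h2, h3] <;> norm_num

theorem lw_par {u v : ZMod p × ZMod p × ZMod p} (h : u.1 = v.1) (h' : u.2.1 ≠ v.2.1) :
    ∑ z, lw u z * lw v z = 0 := by
  rw [lw_sum]
  refine Finset.sum_eq_zero fun x _ => ?_
  rw [if_neg]
  rw [h]
  intro h2
  exact h' (add_left_cancel h2)

theorem lw_line {u v : ZMod p × ZMod p × ZMod p} (h : u.1 = v.1) (h' : u.2.1 = v.2.1) :
    ∑ z, lw u z * lw v z = ∑ x, rr u.2.2 x * rr v.2.2 x := by
  rw [lw_sum]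
  refine Finset.sum_congr rfl fun x _ => ?_
  rw [if_pos (by rw [h, h'])]

variable (p) in
/-- the graph of the lines -/
noncomputable def lineGraph : SimpleGraph (ZMod p × ZMod p × ZMod p) where
  Adj u v := u ≠ v ∧ ((u.1 = v.1 ∧ u.2.1 = v.2.1) ∨ (u.1 ≠ v.1 ∧ ∑ z, lw u z * lw v z = -1))
  symm := by
    constructor
    rintro u v ⟨h1, h2⟩
    refine ⟨h1.symm, ?_⟩
    rcases h2 with ⟨h2, h3⟩ | ⟨h2, h3⟩
    · exact Or.inl ⟨h2.symm, h3.symm⟩
    · refine Or.inr ⟨h2.symm, ?_⟩
      rw [← h3]
      exact Finset.sum_congr rfl fun z _ => mul_comm _ _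
  loopless := by
    constructor
    rintro u ⟨h, -⟩
    exact h rfl

/-- the correction matrix -/
noncomputable def lE (u v : ZMod p × ZMod p × ZMod p) : ℝ :=
  (if u.1 = v.1 ∧ u.2.1 = v.2.1 then
    (if u.2.2 = v.2.2 then (p : ℝ) - 1 else 0) + chi (u.2.2 - v.2.2) + chi (v.2.2 - u.2.2) + 1
    else 0) - (if u.1 = v.1 then 1 else 0)

open scoped Classical in
theorem lT (hp : 2 < p) (u v : ZMod p × ZMod p × ZMod p) :
    (if (lineGraph p).Adj u v then (2 : ℝ) else 0) = 1 - (∑ z, lw u z * lw v z) + lE u v := by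
  by_cases h1 : u.1 = v.1
  · by_cases h2 : u.2.1 = v.2.1
    · by_cases h3 : u.2.2 = v.2.2
      · have huv : u = v := by
          ext
          · exact h1
          · exact h2
          · exact h3
        subst huv
        rw [if_neg ((lineGraph p).loopless.irrefl u), lw_line rfl rfl, rr_self]
        unfold lE
        rw [if_pos ⟨rfl, rfl⟩, if_pos rfl, if_pos rfl, sub_self, chi_zero]
        ring
      · have huv : u ≠ v := fun h => h3 (by rw [h])
        rw [if_pos (show (lineGraph p).Adj u v from ⟨huv, Or.inl ⟨h1, h2⟩⟩), lw_line h1 h2,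
          rr_corr hp h3]
        unfold lE
        rw [if_pos ⟨h1, h2⟩, if_neg h3, if_pos h1]
        ring
    · rw [if_neg, lw_par h1 h2]
      · unfold lE
        rw [if_neg (fun h => h2 h.2), if_pos h1]
        ring
      · rintro ⟨-, ⟨-, h⟩ | ⟨h, -⟩⟩
        · exact h2 h
        · exact h h1
  · have huv : u ≠ v := fun h => h1 (by rw [h])
    have hE : lE u v = 0 := by
      unfold lE
      rw [if_neg (fun h => h1 h.1), if_neg h1]
      ring
    rw [hE]
    rcases lw_ne h1 with h2 | h2
    · rw [if_neg, h2]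
      · ring
      · rintro ⟨-, ⟨h, -⟩ | ⟨-, h⟩⟩
        · exact h1 h
        · rw [h2] at h
          norm_num at h
    · rw [if_pos (show (lineGraph p).Adj u v from ⟨huv, Or.inr ⟨h1, h2⟩⟩), h2]
      ring

theorem lE_form (hp : 2 < p) (F : ZMod p × ZMod p × ZMod p → ℝ)
    (hF : ∀ a : ZMod p, ∑ u : ZMod p × ZMod p × ZMod p, (if u.1 = a then (1 : ℝ) else 0) * F u = 0) :
    ((p : ℝ) - 2 * √(p : ℝ) - 1) * ∑ u, F u ^ 2 ≤ ∑ u, ∑ v, lE u v * (F u * F v) := by
  have h1 : ∑ u, ∑ v, lE u v * (F u * F v) =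
      ∑ a, ∑ b, (∑ c, ∑ c', ((if c = c' then (p : ℝ) - 1 else 0) + chi (c - c') + chi (c' - c) + 1) *
        (F (a, b, c) * F (a, b, c'))) - ∑ a, (∑ b, ∑ c, F (a, b, c)) ^ 2 := by
    have e1 : ∀ u v : ZMod p × ZMod p × ZMod p, lE u v * (F u * F v) =
        (if u.1 = v.1 ∧ u.2.1 = v.2.1 then
          ((if u.2.2 = v.2.2 then (p : ℝ) - 1 else 0) + chi (u.2.2 - v.2.2) +
            chi (v.2.2 - u.2.2) + 1) * (F u * F v) else 0) -
          (if u.1 = v.1 then F u * F v else 0) := by
      intro u v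
      unfold lE
      rw [sub_mul, ite_mul, zero_mul, ite_mul, zero_mul, one_mul]
    simp_rw [e1, Finset.sum_sub_distrib]
    congr 1
    · rw [Fintype.sum_prod_type]
      refine Finset.sum_congr rfl fun a _ => ?_
      rw [Fintype.sum_prod_type]
      refine Finset.sum_congr rfl fun b _ => ?_
      refine Finset.sum_congr rfl fun c _ => ?_
      rw [Fintype.sum_prod_type]
      rw [Finset.sum_eq_single a]
      · rw [Fintype.sum_prod_type]
        rw [Finset.sum_eq_single b]
        · refine Finset.sum_congr rfl fun c' _ => ?_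
          rw [if_pos ⟨rfl, rfl⟩]
        · intro b' _ hb
          refine Finset.sum_eq_zero fun c' _ => ?_
          rw [if_neg (fun h => hb h.2.symm)]
        · intro h
          exact absurd (Finset.mem_univ _) h
      · intro a' _ ha
        refine Finset.sum_eq_zero fun x _ => ?_
        rw [if_neg (fun h => ha h.1.symm)]
      · intro h
        exact absurd (Finset.mem_univ _) h
    · rw [Fintype.sum_prod_type]
      refine Finset.sum_congr rfl fun a _ => ?_
      rw [sq, ← Fintype.sum_prod_type (f := fun x : ZMod p × ZMod p => F (a, x.1, x.2)),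
        Finset.sum_mul_sum]
      refine Finset.sum_congr rfl fun x _ => ?_
      rw [Fintype.sum_prod_type, Finset.sum_eq_single a]
      · refine Finset.sum_congr rfl fun y _ => ?_
        rw [if_pos rfl]
      · intro a' _ ha
        refine Finset.sum_eq_zero fun y _ => ?_
        rw [if_neg (fun h => ha h.symm)]
      · intro h
        exact absurd (Finset.mem_univ _) h
  have h2 : ∀ a, ∑ b, ∑ c, F (a, b, c) = 0 := by
    intro a
    have h := hF a
    rw [Fintype.sum_prod_type, Finset.sum_eq_single a] at h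
    · rw [Fintype.sum_prod_type] at h
      simpa using h
    · intro a' _ ha
      refine Finset.sum_eq_zero fun y _ => ?_
      rw [if_neg ha, zero_mul]
    · intro h
      exact absurd (Finset.mem_univ _) h
  rw [h1]
  simp_rw [h2]
  have h3 : ∀ a b, ((p : ℝ) - 2 * √(p : ℝ) - 1) * ∑ c, F (a, b, c) ^ 2 ≤
      ∑ c, ∑ c', ((if c = c' then (p : ℝ) - 1 else 0) + chi (c - c') + chi (c' - c) + 1) *
        (F (a, b, c) * F (a, b, c')) := by
    intro a b
    have e1 := chi_form hp (fun c => F (a, b, c))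
    have e2 : ∑ c, ∑ c', chi (c' - c) * (F (a, b, c) * F (a, b, c')) =
        ∑ c, ∑ c', chi (c - c') * (F (a, b, c) * F (a, b, c')) := by
      rw [Finset.sum_comm]
      refine Finset.sum_congr rfl fun c _ => Finset.sum_congr rfl fun c' _ => ?_
      ring
    simp_rw [add_mul, Finset.sum_add_distrib, ite_mul, zero_mul, one_mul, Finset.sum_ite_eq,
      if_pos (Finset.mem_univ _)]
    rw [e2]
    have e3 : ∑ c, ∑ c', F (a, b, c) * F (a, b, c') = (∑ c, F (a, b, c)) ^ 2 := by
      rw [sq, Finset.sum_mul_sum]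
    have e4 : ∑ c, ((p : ℝ) - 1) * (F (a, b, c) * F (a, b, c)) =
        ((p : ℝ) - 1) * ∑ c, F (a, b, c) ^ 2 := by
      rw [Finset.mul_sum]
      refine Finset.sum_congr rfl fun c _ => ?_
      ring
    rw [e3, e4]
    have := sq_nonneg (∑ c, F (a, b, c))
    nlinarith
  have h4 : ∑ u, F u ^ 2 = ∑ a, ∑ b, ∑ c, F (a, b, c) ^ 2 := by
    rw [Fintype.sum_prod_type]
    refine Finset.sum_congr rfl fun a _ => ?_
    rw [Fintype.sum_prod_type]
  rw [h4, Finset.mul_sum]
  have h5 : ∑ a : ZMod p, (0 : ℝ) ^ 2 = 0 := by simp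
  rw [h5, sub_zero]
  refine Finset.sum_le_sum fun a _ => ?_
  rw [Finset.mul_sum]
  exact Finset.sum_le_sum fun b _ => h3 a b

end Lines

theorem lines : LinesStatement := by
  intro p n i hp hp2 hn hi
  have : Fact p.Prime := ⟨hp⟩
  have hcard : Fintype.card (Fin n) ≤ Fintype.card (ZMod p × ZMod p × ZMod p) := by
    rw [Fintype.card_fin, Fintype.card_prod, Fintype.card_prod, ZMod.card]
    calc n ≤ p ^ 3 := hn
      _ = p * (p * p) := by ring
  obtain ⟨e⟩ := Function.Embedding.nonempty_of_card_le hcard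
  refine big_gen (K := ZMod p) e e.injective (lineGraph p) lw
    (fun a u => if u.1 = a then 1 else 0) lE _ (lT hp2) ?_ ?_
  · intro F _ hg
    have h := lE_form hp2 F hg
    have h2 := sq_nonneg (∑ u, F u)
    have h3 : 2 * (((p : ℝ) - 2 * √(p : ℝ) - 1) / 2) = (p : ℝ) - 2 * √(p : ℝ) - 1 := by ring
    rw [h3]
    linarith
  · rw [Fintype.card_prod, ZMod.card]
    nlinarith

end Pool.Agent.Lib.MP_b9b22b_co.AR
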