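import Pool.Agent.Lib.MP_b9b22b_co.AR.Fin
import Pool.Agent.Lib.MP_b9b22b_co.AR.Abs
import Pool.Agent.Lib.MP_b9b22b_co.AR.Aba
import Pool.Agent.Lib.MP_b9b22b_co.AR.Ker20

/-!
The final theorem from `UniStatement`.
-/

set_option autoImplicit false

namespace Pool.Agent.Lib.MP_b9b22b_co.AR

open Finset

/-- a power of four between `k / 4` and `k` -/
theorem exists_pow_four {k : ℕ} (hk : 4 ≤ k) : ∃ t : ℕ, 1 ≤ t ∧ 4 ^ t ≤ k ∧ k < 4 * 4 ^ t := by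
  refine ⟨Nat.log 4 k, ?_, Nat.pow_log_le_self 4 (by omega), ?_⟩
  · exact Nat.log_pos (by norm_num) hk
  · have := Nat.lt_pow_succ_log_self (b := 4) (by norm_num) k
    rw [pow_succ] at this
    linarith

theorem sqrt_four (t : ℕ) : √((4 : ℝ) ^ t) = 2 ^ t := by
  have : (4 : ℝ) ^ t = (2 ^ t) ^ 2 := by
    rw [← pow_mul, mul_comm t 2, pow_mul]; norm_num
  rw [this, Real.sqrt_sq (by positivity)]

/-- the lower bound from the unbiased bases, powers of four -/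
theorem low_pow {n i k t : ℕ} (hn : n = i + k) (hi : 1 ≤ i) (hk : k = 4 ^ t)
    (h : 2 * n ≤ k * (k + 2)) {x : ℝ} (hx : IsGreatest (eigSet i n) x) : √(k : ℝ) / 2 - 1 ≤ x := by
  rcases Nat.eq_zero_or_pos t with ht | ht
  · subst ht
    rw [pow_zero] at hk
    subst hk
    -- n = i + 1, 2 n ≤ 3: impossible
    omega
  · have hb := ker20 t n i ht (by rw [← hk]; exact h) (by rw [← hk]; omega)
    obtain ⟨-, G, hG⟩ := Lin.H63.lamS n i _ hi hb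
    have h1 := hx.2 ⟨G, rfl⟩
    have h2 : √(k : ℝ) = 2 ^ t := by
      rw [hk]; push_cast; exact sqrt_four t
    rw [h2]
    linarith

theorem low_gen {n i k : ℕ} (hn : n = i + k) (hi : 1 ≤ i) (h : 32 * n ≤ k ^ 2) {x : ℝ}
    (hx : IsGreatest (eigSet i n) x) : √(k : ℝ) / 4 - 1 ≤ x := by
  have hk : 4 ≤ k := by
    by_contra hcon
    push Not at hcon
    have : k ^ 2 ≤ 3 * k := by nlinarith
    nlinarith
  obtain ⟨t, ht, h1, h2⟩ := exists_pow_four hk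
  have hb := ker20 t n i ht (by nlinarith) (by omega)
  obtain ⟨-, G, hG⟩ := Lin.H63.lamS n i _ hi hb
  have h3 := hx.2 ⟨G, rfl⟩
  have h4 : √(k : ℝ) ≤ 2 * 2 ^ t := by
    have h5 : (k : ℝ) ≤ 4 * 4 ^ t := by exact_mod_cast h2.le
    have h6 := Real.sqrt_le_sqrt h5
    rwa [Real.sqrt_mul (by norm_num), sqrt_four, show √(4 : ℝ) = 2 by
      rw [show (4 : ℝ) = 2 ^ 2 by norm_num, Real.sqrt_sq (by norm_num)]] at h6
  linarith

/-- the mirror image -/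
theorem up_pow {n i k t : ℕ} (hi : i = k + 2) (hin : i < n) (hk : k = 4 ^ t)
    (h : 2 * n ≤ k * (k + 2)) {x : ℝ} (hx : IsLeast (eigSet i n) x) : x ≤ -(√(k : ℝ) / 2) := by
  rcases Nat.eq_zero_or_pos t with ht | ht
  · subst ht
    rw [pow_zero] at hk
    subst hk
    omega
  · have hb := ker20 t n (n - k) ht (by rw [← hk]; exact h) (by rw [← hk]; omega)
    obtain ⟨G, hG⟩ := Lin.H63.compl n (n - k - 1) _ (by omega) (by
      rw [show n - k - 1 + 1 = n - k by omega]; exact hb)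
    rw [show n - (n - k - 1) + 1 = i by omega] at hG
    have h1 := hx.2 ⟨G, rfl⟩
    have h2 : √(k : ℝ) = 2 ^ t := by
      rw [hk]; push_cast; exact sqrt_four t
    rw [h2]
    linarith

theorem up_gen {n i k : ℕ} (hi : i = k + 2) (hin : i < n) (h : 32 * n ≤ k ^ 2) {x : ℝ}
    (hx : IsLeast (eigSet i n) x) : x ≤ -(√(k : ℝ) / 4) := by
  have hk : 4 ≤ k := by
    by_contra hcon
    push Not at hcon
    have : k ^ 2 ≤ 3 * k := by nlinarith
    nlinarith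
  obtain ⟨t, ht, h1, h2⟩ := exists_pow_four hk
  have hb := ker20 t n (n - k) ht (by nlinarith) (by omega)
  obtain ⟨G, hG⟩ := Lin.H63.compl n (n - k - 1) _ (by omega) (by
    rw [show n - k - 1 + 1 = n - k by omega]; exact hb)
  rw [show n - (n - k - 1) + 1 = i by omega] at hG
  have h3 := hx.2 ⟨G, rfl⟩
  have h4 : √(k : ℝ) ≤ 2 * 2 ^ t := by
    have h5 : (k : ℝ) ≤ 4 * 4 ^ t := by exact_mod_cast h2.le
    have h6 := Real.sqrt_le_sqrt h5
    rwa [Real.sqrt_mul (by norm_num), sqrt_four, show √(4 : ℝ) = 2 by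
      rw [show (4 : ℝ) = 2 ^ 2 by norm_num, Real.sqrt_sq (by norm_num)]] at h6
  linarith

/-- the final theorem from `UniStatement` -/
theorem main (hU : UniStatement) :
    ∀ ε : ℝ, 0 < ε → ∃ C : ℕ, ∀ n i k : ℕ, n = i + k → 1 ≤ i →
      (C ≤ i → (1 + ε) * (n : ℝ) ^ ((2 : ℝ) / 3) ≤ k → ∃ x, IsGreatest (eigSet i n) x ∧
        (1 - ε) * (√((n : ℝ) * k / i) / 2) ≤ x ∧ x ≤ (1 + ε) * (√((n : ℝ) * k / i) / 2)) ∧
      (C ≤ k → (1 + ε) * (n : ℝ) ^ ((2 : ℝ) / 3) ≤ i → ∃ x, IsLeast (eigSet i n) x ∧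
        -(1 + ε) * (√((n : ℝ) * i / k) / 2) ≤ x ∧ x ≤ -(1 - ε) * (√((n : ℝ) * i / k) / 2)) ∧
      (C ≤ k → k ^ 2 ≤ 2 * n → ∃ x, IsGreatest (eigSet i n) x ∧
        x ≤ (1 + ε) * (2 * n / (4 * n - (k : ℝ) ^ 2)) * (√(k : ℝ) / 2)) ∧
      (C ≤ i → i ^ 2 ≤ 2 * n → ∃ x, IsLeast (eigSet i n) x ∧
        -((1 + ε) * (2 * n / (4 * n - (i : ℝ) ^ 2)) * (√(i : ℝ) / 2)) ≤ x) ∧
      (2 * n ≤ k * (k + 2) → (∃ t : ℕ, k = 4 ^ t) → ∃ x, IsGreatest (eigSet i n) x ∧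
        √(k : ℝ) / 2 - 1 ≤ x) ∧
      (32 * n ≤ k ^ 2 → ∃ x, IsGreatest (eigSet i n) x ∧ √(k : ℝ) / 4 - 1 ≤ x) ∧
      (1 ≤ k → 2 * n ≤ (i - 2) * i → (∃ t : ℕ, i - 2 = 4 ^ t) → ∃ x, IsLeast (eigSet i n) x ∧
        x ≤ -(√((i - 2 : ℕ) : ℝ) / 2)) ∧
      (1 ≤ k → 32 * n ≤ (i - 2) ^ 2 → ∃ x, IsLeast (eigSet i n) x ∧
        x ≤ -(√((i - 2 : ℕ) : ℝ) / 4)) := by
  intro ε hε
  obtain ⟨C₁, hC₁⟩ := fin_of hU ε hε
  obtain ⟨C₂, hC₂⟩ := aba abs_row ε hε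
  obtain ⟨C₃, hC₃⟩ := abb abs_row ε hε
  refine ⟨max C₁ (max C₂ (max C₃ 1)), fun n i k hn hi => ?_⟩
  have hki : ((n : ℝ) - i) = k := by rw [hn]; push_cast; ring
  have hki' : n - i = k := by omega
  obtain ⟨M, hM⟩ := Lin.H63.exists_isGreatest i n
  obtain ⟨m, hm⟩ := Lin.H63.exists_isLeast i n
  have m1 : C₁ ≤ max C₁ (max C₂ (max C₃ 1)) := le_max_left _ _
  have m2 : C₂ ≤ max C₁ (max C₂ (max C₃ 1)) := (le_max_left _ _).trans (le_max_right _ _)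
  have m3 : C₃ ≤ max C₁ (max C₂ (max C₃ 1)) :=
    (le_max_left _ _).trans ((le_max_right _ _).trans (le_max_right _ _))
  have m4 : 1 ≤ max C₁ (max C₂ (max C₃ 1)) :=
    (le_max_right _ _).trans ((le_max_right _ _).trans (le_max_right _ _))
  refine ⟨fun h1 h2 => ?_, fun h1 h2 => ?_, fun h1 h2 => ?_, fun h1 h2 => ?_, fun h1 h2 => ?_,
    fun h1 => ?_, fun h1 h2 h3 => ?_, fun h1 h2 => ?_⟩
  · have := (hC₁ n i).1 (m1.trans h1) (by rw [hki]; exact h2) M hM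
    rw [hki] at this
    exact ⟨M, hM, this⟩
  · have := (hC₁ n i).2 (by omega) h2 m hm
    rw [hki] at this
    exact ⟨m, hm, this⟩
  · obtain ⟨G, hG⟩ := hM.1
    have hk : 1 ≤ k := m4.trans h1
    have := hC₂ n i (by omega) (by omega) (by rw [hki']; exact h2) G
    rw [hki', hG] at this
    exact ⟨M, hM, this⟩
  · obtain ⟨G, hG⟩ := hm.1
    have := hC₃ n i (by omega) (m3.trans h1) h2 G
    rw [hG] at this
    exact ⟨m, hm, this⟩
  · obtain ⟨t, ht⟩ := h2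
    exact ⟨M, hM, low_pow hn hi ht h1 hM⟩
  · exact ⟨M, hM, low_gen hn hi h1 hM⟩
  · obtain ⟨t, ht⟩ := h3
    have hi2 : 2 < i := by
      have : 0 < 4 ^ t := by positivity
      omega
    have e : i = (i - 2) + 2 := by omega
    refine ⟨m, hm, up_pow e (by omega) ht ?_ hm⟩
    have : (i - 2) * i = (i - 2) * ((i - 2) + 2) := by rw [← e]
    rw [← this]
    exact h2
  · have hi2 : 2 < i := by
      by_contra hcon
      push Not at hcon
      have : i - 2 = 0 := by omega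
      rw [this] at h2
      omega
    exact ⟨m, hm, up_gen (by omega) (by omega) h2 hm⟩

end Pool.Agent.Lib.MP_b9b22b_co.AR
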