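import Pool.Agent.Lib.MP_b9b22b_co.AR.Iface

/-!
Row UNI: the uniform lower bound down to `n - i ≥ (1 + ε) n ^ (2 / 3)`, from the lines, the linear
range and the prime number theorem (a prime in every `(r, (1 + η) r]`, `r` large).
-/

set_option autoImplicit false

namespace Pool.Agent.Lib.MP_b9b22b_co.AR

open Finset

/-- the form of the prime number theorem that is used (`CT.prime_between` of `MP_90aff6_co`) -/
def PrimeBetween : Prop :=
  ∀ ε : ℝ, 0 < ε → ∃ r0 : ℝ, ∀ r : ℝ, r0 ≤ r →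
    ∃ p : ℕ, p.Prime ∧ r < (p : ℝ) ∧ (p : ℝ) ≤ (1 + ε) * r

/-- the real inequalities: `P` is the prime, `K = n - i`, `s = √K` -/
theorem uni_real {ε K s P M : ℝ} (hε : 0 < ε) (hε1 : ε ≤ 1 / 2) (hs : 0 < s) (hsK : s ^ 2 = K)
    (hM : 0 < M) (hMM : M ^ 2 = P) (h1 : K < (1 + ε) * P ^ 2) (h2 : (1 + ε) * P ^ 2 ≤ (1 + ε / 8) ^ 2 * K)
    (hP : 0 < P) (hbig : 400 ≤ ε ^ 2 * s) :
    P ^ 2 + P ≤ K ∧ (1 - ε) * ((1 + ε / 4) * s) ≤ P - 2 * M - 1 := by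
  have hε2 : ε ^ 2 ≤ ε := by nlinarith
  have hs1 : 400 ≤ s := by nlinarith
  have hs2 : 400 ≤ ε * s := by nlinarith
  -- P ≤ 2 s
  have hP2 : P ≤ 2 * s := by
    have h3 : P ^ 2 ≤ (2 * s) ^ 2 := by
      have : (1 + ε / 8) ^ 2 ≤ 4 := by nlinarith
      have h4 : P ^ 2 ≤ (1 + ε) * P ^ 2 := by nlinarith [sq_nonneg P]
      have h5 : (1 + ε / 8) ^ 2 * K ≤ 4 * K := by
        rw [← hsK]
        exact mul_le_mul_of_nonneg_right this (sq_nonneg s)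
      rw [mul_pow, hsK]
      linarith
    exact le_of_sq_le_sq h3 (by positivity)
  refine ⟨?_, ?_⟩
  · -- P ^ 2 + P ≤ K
    have h3 : (1 + ε) * (P ^ 2 + P) ≤ (1 + ε) * K := by
      have h4 : (1 + ε / 8) ^ 2 ≤ 1 + ε - ε / 2 := by nlinarith
      have h5 : (1 + ε / 8) ^ 2 * K ≤ (1 + ε - ε / 2) * K := by
        rw [← hsK]
        exact mul_le_mul_of_nonneg_right h4 (sq_nonneg s)
      have h6 : (1 + ε) * P ≤ ε / 2 * K := by
        rw [← hsK]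
        nlinarith
      linarith
    exact le_of_mul_le_mul_left h3 (by linarith)
  · -- the value
    have h3 : (1 - ε / 2) * s ≤ P := by
      have h4 : ((1 - ε / 2) * s) ^ 2 ≤ P ^ 2 := by
        have h5 : (1 + ε) * (1 - ε / 2) ^ 2 ≤ 1 := by nlinarith [sq_nonneg ε]
        have h6 : (1 + ε) * ((1 - ε / 2) * s) ^ 2 ≤ (1 + ε) * P ^ 2 := by
          have h7 : (1 + ε) * (1 - ε / 2) ^ 2 * s ^ 2 ≤ 1 * s ^ 2 :=
            mul_le_mul_of_nonneg_right h5 (sq_nonneg s)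
          calc (1 + ε) * ((1 - ε / 2) * s) ^ 2 = (1 + ε) * (1 - ε / 2) ^ 2 * s ^ 2 := by ring
            _ ≤ 1 * s ^ 2 := h7
            _ = K := by rw [one_mul, hsK]
            _ ≤ _ := h1.le
        exact le_of_mul_le_mul_left h6 (by linarith)
      exact le_of_sq_le_sq h4 hP.le
    have h4 : 2 * M + 1 ≤ ε / 4 * s := by
      have h5 : (2 * M) ^ 2 ≤ (ε / 4 * s - 1) ^ 2 := by
        have h6 : (2 * M) ^ 2 ≤ 8 * s := by
          rw [mul_pow, hMM]; linarith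
        have h7 : 99 ≤ ε / 4 * s - 1 := by linarith
        have h8 : 8 * s ≤ (ε / 4 * s - 1) ^ 2 := by
          have h9 : (ε / 4 * s) ^ 2 = ε ^ 2 * s * s / 16 := by ring
          nlinarith
        linarith
      have h6 : 2 * M ≤ ε / 4 * s - 1 := le_of_sq_le_sq h5 (by linarith)
      linarith
    nlinarith

theorem uni_small (hL : LinesStatement) (hU : Lin.UniStatement) (hM : Lin.MonoStatement)
    (hP : PrimeBetween) {ε : ℝ} (hε : 0 < ε) (hε1 : ε ≤ 1 / 2) :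
    ∃ C : ℕ, ∀ n i : ℕ, C ≤ i → (1 + ε) * (n : ℝ) ^ ((2 : ℝ) / 3) ≤ n - i →
      Lin.Big n i ((1 - ε) * √(n * (n - i) / i) / 2) := by
  obtain ⟨C₁, hC₁⟩ := hU (ε / 4) (by positivity)
  obtain ⟨r0, hr0⟩ := hP (ε / 8) (by positivity)
  -- the size of k
  set K0 : ℝ := (400 / ε ^ 2 + 2 * |r0| + 1) ^ 2 with hK0
  have hK01 : 1 ≤ K0 := by
    rw [hK0]
    have : 0 ≤ 400 / ε ^ 2 := by positivity
    nlinarith [abs_nonneg r0]
  obtain ⟨C₂, hC₂⟩ := exists_nat_gt (K0 ^ 2)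
  refine ⟨max C₁ (max C₂ 1), fun n i hi hni => ?_⟩
  have hi1 : C₁ ≤ i := (le_max_left _ _).trans hi
  have hi2 : C₂ ≤ i := ((le_max_left _ _).trans (le_max_right _ _)).trans hi
  have hi3 : 1 ≤ i := ((le_max_right _ _).trans (le_max_right _ _)).trans hi
  have hiR : (1 : ℝ) ≤ i := by exact_mod_cast hi3
  have hnR0 : (0 : ℝ) ≤ n := Nat.cast_nonneg n
  have hrp : 0 ≤ (n : ℝ) ^ ((2 : ℝ) / 3) := Real.rpow_nonneg hnR0 _
  have hin : (i : ℝ) ≤ n := by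
    have : 0 ≤ (1 + ε) * (n : ℝ) ^ ((2 : ℝ) / 3) := by positivity
    linarith
  have hnR : (1 : ℝ) ≤ n := hiR.trans hin
  by_cases hcase : (i : ℝ) ≤ (1 - ε / 4) * n
  · refine hM n n i i _ _ le_rfl le_rfl ?_ (hC₁ n i hi1 hcase)
    have : 0 ≤ √((n : ℝ) * (n - i) / i) := Real.sqrt_nonneg _
    nlinarith
  rw [not_le] at hcase
  set K : ℝ := (n : ℝ) - i with hK
  have hKn : (n : ℝ) ^ ((2 : ℝ) / 3) ≤ K := by
    have : (n : ℝ) ^ ((2 : ℝ) / 3) ≤ (1 + ε) * (n : ℝ) ^ ((2 : ℝ) / 3) := by nlinarith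
    linarith
  have hnK0 : K0 ^ 2 ≤ n := by
    have : (C₂ : ℝ) ≤ i := by exact_mod_cast hi2
    linarith
  have hKK0 : K0 ≤ K := by
    have h1 : K0 ≤ (K0 ^ 2) ^ ((2 : ℝ) / 3) := by
      rw [← Real.rpow_natCast K0 2, ← Real.rpow_mul (by linarith)]
      calc K0 = K0 ^ (1 : ℝ) := (Real.rpow_one K0).symm
        _ ≤ K0 ^ (((2 : ℕ) : ℝ) * (2 / 3)) := Real.rpow_le_rpow_of_exponent_le hK01 (by norm_num)
    have h2 : (K0 ^ 2) ^ ((2 : ℝ) / 3) ≤ (n : ℝ) ^ ((2 : ℝ) / 3) :=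
      Real.rpow_le_rpow (by positivity) hnK0 (by norm_num)
    linarith
  have hKpos : 0 < K := by linarith
  set s : ℝ := √K with hs
  have hs0 : 0 < s := Real.sqrt_pos.2 hKpos
  have hsK : s ^ 2 = K := Real.sq_sqrt hKpos.le
  have hsbig : 400 / ε ^ 2 + 2 * |r0| + 1 ≤ s := by
    rw [hs]
    apply Real.le_sqrt_of_sq_le
    rw [← hK0]
    exact hKK0
  have habs : r0 ≤ |r0| := le_abs_self r0
  have habs0 : 0 ≤ |r0| := abs_nonneg r0
  have hq : 0 ≤ 400 / ε ^ 2 := by positivity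
  -- the prime
  set r : ℝ := √(K / (1 + ε)) with hr
  have hr2 : r ^ 2 = K / (1 + ε) := Real.sq_sqrt (by positivity)
  have hrr : s ≤ 2 * r := by
    have h1 : s ^ 2 ≤ (2 * r) ^ 2 := by
      rw [mul_pow, hr2, hsK]
      rw [← mul_div_assoc, le_div_iff₀ (by linarith)]
      nlinarith
    exact le_of_sq_le_sq h1 (by positivity)
  obtain ⟨p, hp, hp1, hp2⟩ := hr0 r (by linarith)
  have hrpos : 0 < r := by linarith
  have hpR : (0 : ℝ) < p := lt_trans hrpos hp1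
  have hKp : K < (1 + ε) * (p : ℝ) ^ 2 := by
    have h1 : r ^ 2 < (p : ℝ) ^ 2 := by
      apply sq_lt_sq' <;> linarith
    rw [hr2, div_lt_iff₀ (by linarith)] at h1
    linarith
  have hpK : (1 + ε) * (p : ℝ) ^ 2 ≤ (1 + ε / 8) ^ 2 * K := by
    have h1 : (p : ℝ) ^ 2 ≤ ((1 + ε / 8) * r) ^ 2 := by
      apply sq_le_sq' <;> nlinarith
    rw [mul_pow, hr2] at h1
    calc (1 + ε) * (p : ℝ) ^ 2 ≤ (1 + ε) * ((1 + ε / 8) ^ 2 * (K / (1 + ε))) :=
          mul_le_mul_of_nonneg_left h1 (by linarith)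
      _ = (1 + ε / 8) ^ 2 * K := by field_simp
  have h400 : 400 ≤ ε ^ 2 * s := by
    have h1 : 400 / ε ^ 2 ≤ s := by linarith
    rw [div_le_iff₀ (by positivity)] at h1
    linarith
  have hM0 : 0 < √(p : ℝ) := Real.sqrt_pos.2 hpR
  obtain ⟨g1, g2⟩ := uni_real hε hε1 hs0 hsK hM0 (Real.sq_sqrt hpR.le) hKp hpK hpR h400
  -- the lines
  have hcard : i + p ^ 2 + p ≤ n := by
    have : ((i + p ^ 2 + p : ℕ) : ℝ) ≤ (n : ℝ) := by
      push_cast
      linarith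
    exact_mod_cast this
  have hn3 : n ≤ p ^ 3 := by
    by_contra hcon
    rw [not_le] at hcon
    have h1 : ((p : ℝ) ^ 3) < n := by exact_mod_cast hcon
    have h2 : ((p : ℝ) ^ 3) ^ ((2 : ℝ) / 3) < (n : ℝ) ^ ((2 : ℝ) / 3) :=
      Real.rpow_lt_rpow (by positivity) h1 (by norm_num)
    have h3 : ((p : ℝ) ^ 3) ^ ((2 : ℝ) / 3) = (p : ℝ) ^ 2 := by
      rw [← Real.rpow_natCast (p : ℝ) 3, ← Real.rpow_mul hpR.le, ← Real.rpow_natCast (p : ℝ) 2]
      norm_num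
    rw [h3] at h2
    have h4 : (1 + ε) * (p : ℝ) ^ 2 < (1 + ε) * (n : ℝ) ^ ((2 : ℝ) / 3) :=
      mul_lt_mul_of_pos_left h2 (by linarith)
    linarith
  have hp2' : 2 < p := by
    have h1 : (2 : ℝ) < p := by
      have h2 : (400 : ℝ) ≤ s := by nlinarith
      linarith
    exact_mod_cast h1
  refine hM n n i i _ _ le_rfl le_rfl ?_ (hL p n i hp hp2' hn3 hcard)
  -- the comparison
  have hroot : √((n : ℝ) * K / i) ≤ (1 + ε / 4) * s := by
    have h1 : (n : ℝ) * K / i ≤ ((1 + ε / 4) * s) ^ 2 := by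
      rw [mul_pow, hsK, div_le_iff₀ (by linarith)]
      have h2 : (n : ℝ) ≤ (1 + ε / 4) ^ 2 * i := by
        have h3 : 1 ≤ (1 + ε / 4) ^ 2 * (1 - ε / 4) := by nlinarith [sq_nonneg ε]
        have h4 : (1 + ε / 4) ^ 2 * ((1 - ε / 4) * n) ≤ (1 + ε / 4) ^ 2 * i :=
          mul_le_mul_of_nonneg_left hcase.le (by positivity)
        nlinarith
      calc (n : ℝ) * K ≤ ((1 + ε / 4) ^ 2 * i) * K := mul_le_mul_of_nonneg_right h2 hKpos.le
        _ = (1 + ε / 4) ^ 2 * K * i := by ring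
    calc √((n : ℝ) * K / i) ≤ √(((1 + ε / 4) * s) ^ 2) := Real.sqrt_le_sqrt h1
      _ = (1 + ε / 4) * s := Real.sqrt_sq (by positivity)
  have h5 : (1 - ε) * √((n : ℝ) * K / i) ≤ (1 - ε) * ((1 + ε / 4) * s) :=
    mul_le_mul_of_nonneg_left hroot (by linarith)
  linarith

/-- Row UNI. -/
theorem uni (hL : LinesStatement) (hU : Lin.UniStatement) (hM : Lin.MonoStatement)
    (hP : PrimeBetween) : UniStatement := by
  intro ε hε
  by_cases hε1 : ε ≤ 1 / 2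
  · exact uni_small hL hU hM hP hε hε1
  · rw [not_le] at hε1
    obtain ⟨C, hC⟩ := uni_small hL hU hM hP (ε := 1 / 2) (by norm_num) le_rfl
    refine ⟨C, fun n i hi hni => ?_⟩
    have h0 : 0 ≤ (n : ℝ) ^ ((2 : ℝ) / 3) := Real.rpow_nonneg (Nat.cast_nonneg n) _
    have h1 := hC n i hi (by nlinarith)
    refine hM n n i i _ _ le_rfl le_rfl ?_ h1
    have : 0 ≤ √((n : ℝ) * (n - i) / i) := Real.sqrt_nonneg _
    nlinarith

end Pool.Agent.Lib.MP_b9b22b_co.AR
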